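import Pool.Agent.MP_8d06cc_nt.RED.Fin

/-! The residual divisor of a multiplication step is again in the finite set. -/

set_option autoImplicit false
set_option linter.unusedSectionVars false

namespace Pool.Agent.MP_8d06cc_nt.RED

open Polynomial AB Finx

noncomputable section

namespace Clox

open Classical

variable {k : Type} [Field k] {f : k[X]}

theorem dl_io (P Q : k × k) : dl P (io Q) = dl (io P) Q := by
  by_cases h : Q = io P
  · rw [h, io_io, dl_self, dl_self]
  · rw [dl_ne h, dl_ne fun h2 => h (by rw [← h2, io_io])]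

/-- the multiplicity function -/
def cnt (s : Multiset (k × k)) : k × k → ℤ := fun P => s.count P

theorem cnt_cons (P : k × k) (s : Multiset (k × k)) : cnt (P ::ₘ s) = dl P + cnt s := by
  funext Q
  by_cases h : Q = P
  · simp [cnt, h, dl_self, add_comm]
  · simp [cnt, dl_ne h, Multiset.count_cons_of_ne h]

/-- finite parts of the classes -/
def HH (f : k[X]) (S : Set (k × k)) : AddSubgroup (k × k → ℤ) :=
  (Gam f S).comap (AddMonoidHom.inl _ _)

theorem ord_mem (S : Set (k × k)) {φ : R f} (h : nm φ ≠ 0) : ord φ ∈ HH f S := by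
  have h1 : (ord φ, oi (-1) φ) ∈ Gam f S :=
    AddSubgroup.mem_sup_left (AddSubgroup.subset_closure ⟨φ, h, rfl⟩)
  have h2 : ((0, 1) : (k × k → ℤ) × ℤ) ∈ Gam f S :=
    AddSubgroup.mem_sup_right (AddSubgroup.subset_closure (Or.inl rfl))
  have := sub_mem h1 (zsmul_mem h2 (oi (-1) φ))
  simpa [HH] using this

theorem on_e (e : Fin 8 → k) (i : Fin 8) : On (fz e) (e i, 0) := by
  simp only [On, fz, eval_prod]
  rw [Finset.prod_eq_zero (Finset.mem_univ i) (by simp)]
  simp

theorem build {e : Fin 8 → k} (he : Function.Injective e) {s : Multiset (k × k)}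
    (hc : s.card ≤ 3) (hO : ∀ P ∈ s, On (fz e) P) (hr : ∀ P ∈ s, io P ∉ s.erase P) :
    ∃ D : Dv k, D.Red e ∧ dE e D = cnt s ∧ ∀ P ∈ s, P.2 ≠ 0 → ∃ p, D.x p = P.1 ∧ D.y p = P.2 := by
  set T := s.toFinset.filter fun P => P.2 ≠ 0 with hT
  have hTc : Fintype.card T ≤ Fintype.card (Fin 3) := by
    rw [Fintype.card_coe, Fintype.card_fin]
    exact (Finset.card_filter_le _ _).trans ((Multiset.toFinset_card_le s).trans hc)
  obtain ⟨j⟩ := Function.Embedding.nonempty_of_card_le hTc
  have mT : ∀ t : T, t.1 ∈ s ∧ t.1.2 ≠ 0 := fun t =>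
    ⟨Multiset.mem_toFinset.1 (Finset.mem_filter.1 t.2).1, (Finset.mem_filter.1 t.2).2⟩
  set Q : Fin 3 → k × k := Function.extend j (fun t => t.1) fun _ => (0, 0) with hQ
  set n : Fin 3 → ℕ := Function.extend j (fun t => s.count t.1) fun _ => 0 with hn
  have q1 : ∀ t, Q (j t) = t.1 := fun t => j.injective.extend_apply _ _ t
  have n1 : ∀ t, n (j t) = s.count t.1 := fun t => j.injective.extend_apply _ _ t
  have q0 : ∀ p, (¬ ∃ t, j t = p) → Q p = (0, 0) ∧ n p = 0 := fun p h =>
    ⟨Function.extend_apply' _ _ _ h, Function.extend_apply' _ _ _ h⟩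
  have us : ∀ p, n p ≠ 0 → ∃ t, j t = p := fun p h => by
    by_contra hc; exact h (q0 p hc).2
  set D : Dv k := ⟨fun p => (Q p).1, fun p => (Q p).2, n,
    Finset.univ.filter fun i => (e i, (0 : k)) ∈ s, 0⟩ with hD
  have hE : dE e D = cnt s := by
    funext P
    rw [dE_apply]
    simp only [hD, Prod.mk.eta]
    rw [← Fintype.sum_of_injective j j.injective (fun t => (s.count t.1 : ℤ) * dl t.1 P) _
      (fun p hp => by rw [(q0 p hp).2]; simp) (fun t => by rw [q1, n1])]
    by_cases h0 : P.2 = 0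
    · rw [Finset.sum_eq_zero fun t _ => by
        rw [dl_ne fun h : P = t.1 => (mT t).2 (h ▸ h0), mul_zero], zero_add]
      by_cases hP : P ∈ s
      · have h1 : s.count P = 1 := by
          have := hr P hP
          rw [show io P = P by simp [io, Prod.ext_iff, h0], ← Multiset.count_eq_zero,
            Multiset.count_erase_self] at this
          have := Multiset.one_le_count_iff_mem.2 hP
          omega
        have h2 := hO P hP
        simp only [On, fz, eval_prod, h0] at h2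
        obtain ⟨i, -, hi⟩ := Finset.prod_eq_zero_iff.1 (h2.symm.trans (by simp))
        have h3 : P = (e i, 0) := Prod.ext (by simpa [sub_eq_zero] using hi) h0
        rw [Finset.sum_eq_single i, cnt, h1, h3, dl_self]
        · rfl
        · exact fun i' _ hi' => dl_ne fun h4 => hi' (he (congrArg Prod.fst (h3.symm.trans h4))).symm
        · exact fun h => absurd (by simpa [← h3] using hP) h
      · rw [cnt, Multiset.count_eq_zero.2 hP]
        exact Finset.sum_eq_zero fun i hi => dl_ne fun h => hP (h ▸ by simpa using hi)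
    · rw [Finset.sum_eq_zero (s := Finset.univ.filter _) fun i _ =>
        dl_ne fun h => h0 (congrArg Prod.snd h), add_zero]
      by_cases hP : P ∈ s
      · rw [Finset.sum_eq_single ⟨P, by simp [hT, hP, h0]⟩, dl_self, mul_one, cnt]
        · exact fun t _ ht => by rw [dl_ne fun h => ht (Subtype.ext h.symm), mul_zero]
        · simp
      · rw [cnt, Multiset.count_eq_zero.2 hP]
        exact Finset.sum_eq_zero fun t _ => by
          rw [dl_ne fun h : P = t.1 => hP (h ▸ (mT t).1), mul_zero]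
  refine ⟨D, ⟨?_, ⟨fun i i' h => IsUnit.mk0 _ (sub_ne_zero.2 (he.ne h)), ?_, ?_, ?_⟩, ?_⟩, hE, ?_⟩
  · have h1 : ∀ P ∈ s, ∑ P' ∈ s.toFinset, dl P P' = 1 := fun P hP => by
      rw [Finset.sum_eq_single P, dl_self]
      · exact fun _ _ h => dl_ne h
      · exact fun h => absurd (by simpa using hP) h
    have h2 : ∑ P ∈ s.toFinset, dE e D P = s.card := by
      rw [hE, ← Multiset.toFinset_sum_count_eq, Nat.cast_sum]; rfl
    simp only [dE_apply, Finset.sum_add_distrib] at h2
    have h3 : ∑ P ∈ s.toFinset, ∑ p, (D.n p : ℤ) * dl (D.x p, D.y p) P = ∑ p, (D.n p : ℤ) := by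
      rw [Finset.sum_comm]
      refine Finset.sum_congr rfl fun p _ => ?_
      rw [← Finset.mul_sum]
      by_cases hp : D.n p = 0
      · simp [hp]
      · obtain ⟨t, rfl⟩ := us p hp
        rw [h1, mul_one]
        simpa [hD, q1] using (mT t).1
    have h4 : ∑ P ∈ s.toFinset, ∑ i ∈ D.β, dl (e i, (0 : k)) P = ∑ _i ∈ D.β, 1 := by
      rw [Finset.sum_comm]
      exact Finset.sum_congr rfl fun i hi => h1 _ (Finset.mem_filter.1 hi).2
    rw [h3, h4, ← Nat.cast_sum, Finset.sum_const, nsmul_eq_mul, mul_one] at h2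
    have : D.μ = 0 := rfl
    unfold Dv.r
    omega
  · rintro ⟨p, hp⟩ ⟨q, hq⟩ h
    obtain ⟨t, rfl⟩ := us p hp
    obtain ⟨t', rfl⟩ := us q hq
    have ht : t.1 ≠ t'.1 := fun h2 => h (by rw [Subtype.mk.injEq, Subtype.ext h2])
    refine IsUnit.mk0 _ (sub_ne_zero.2 ?_)
    simp only [hD, q1]
    intro h1
    have a1 := hO _ (mT t).1
    have a2 := hO _ (mT t').1
    rw [On] at a1 a2
    rw [h1] at a1
    rcases sq_eq_sq_iff_eq_or_eq_neg.1 (a2.trans a1.symm) with h2 | h2
    · exact ht (Prod.ext h1 h2.symm)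
    · refine hr _ (mT t).1 ?_
      rw [show io t.1 = t'.1 from Prod.ext h1 h2.symm]
      exact (Multiset.mem_erase_of_ne ht.symm).2 (mT t').1
  · rintro ⟨p, hp⟩
    obtain ⟨t, rfl⟩ := us p hp
    refine IsUnit.mk0 _ ?_
    simpa [hD, q1] using (mT t).2
  · rintro ⟨p, hp⟩
    obtain ⟨t, rfl⟩ := us p hp
    simpa [hD, q1, On] using hO _ (mT t).1
  · intro p hp
    by_cases h : ∃ t, j t = p
    · obtain ⟨t, rfl⟩ := h
      exact absurd ((n1 t).symm.trans hp) (Multiset.count_ne_zero.2 (mT t).1)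
    · simp [hD, (q0 p h).1]
  · intro P hP h0
    exact ⟨j ⟨P, by simp [hT, hP, h0]⟩, by simp [hD, q1], by simp [hD, q1]⟩

variable [CharZero k]

theorem pair_mem (S : Set (k × k)) {P : k × k} (h : On f P) : dl P + dl (io P) ∈ HH f S := by
  have : dl P + dl (io P) = ord (pc f (X - C P.1)) := by
    funext Q
    rw [opc_lin (b := P.2) h, dl_io]; rfl
  exact this ▸ ord_mem S (nm_ne_pc (X_sub_C_ne_zero _))

theorem reduce (S : Set (k × k)) (n : ℕ) : ∀ s : Multiset (k × k), s.card ≤ n →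
    (∀ P ∈ s, On f P) → cnt s ∈ HH f S → ∃ s', s' ≤ s ∧ (∀ P ∈ s', io P ∉ s'.erase P) ∧
      cnt s' ∈ HH f S ∧ ∀ P ∈ s, io P ∉ s → P ∈ s' := by
  induction n with
  | zero =>
    intro s hs _ h
    obtain rfl : s = 0 := Multiset.card_eq_zero.1 (by omega)
    exact ⟨0, le_rfl, by simp, h, by simp⟩
  | succ n ih =>
    intro s hs hO h
    by_cases hr : ∀ P ∈ s, io P ∉ s.erase P
    · exact ⟨s, le_rfl, hr, h, fun P hP _ => hP⟩
    · push Not at hr
      obtain ⟨P, hP, h2⟩ := hr
      obtain ⟨t, ht⟩ : ∃ t, s = P ::ₘ io P ::ₘ t :=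
        ⟨_, by rw [Multiset.cons_erase h2, Multiset.cons_erase hP]⟩
      subst ht
      have hle : t ≤ P ::ₘ io P ::ₘ t :=
        (Multiset.le_cons_self _ _).trans (Multiset.le_cons_self _ _)
      obtain ⟨s', a1, a2, a3, a4⟩ := ih t (by simp at hs; omega)
        (fun Q hQ => hO Q (Multiset.mem_of_le hle hQ)) (by
          have := sub_mem h (pair_mem S (hO P hP))
          rwa [cnt_cons, cnt_cons, ← add_assoc, add_sub_cancel_left] at this)
      refine ⟨s', a1.trans hle, a2, a3, fun Q hQ h3 => a4 Q ?_ fun h4 =>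
        h3 (Multiset.mem_of_le hle h4)⟩
      simp only [Multiset.mem_cons, not_or] at hQ h3
      rcases hQ with rfl | rfl | hQ
      · exact absurd rfl h3.2.1
      · exact absurd (io_io P) h3.1
      · exact hQ

theorem to_ms [IsAlgClosed k] (n : ℕ) : ∀ (U : k[X]) (E : k × k → ℤ), U.natDegree = n → U ≠ 0 →
    (∀ P, 0 ≤ E P) → (∀ P, ord (pc f U) P = E P + E (io P)) →
    ∃ s : Multiset (k × k), s.card = n ∧ (∀ P ∈ s, On f P) ∧ E = cnt s := by
  induction n with
  | zero =>
    intro U E hn hU h0 h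
    refine ⟨0, rfl, by simp, funext fun P => ?_⟩
    have h1 := ord_le (nm_ne_pc (f := f) hU) P
    rw [mult_nm_pc hU, h, eq_C_of_natDegree_eq_zero hn, rootMultiplicity_C] at h1
    have := h0 P
    have := h0 (io P)
    simp only [cnt, Multiset.count_zero]
    omega
  | succ n ih =>
    intro U E hn hU h0 h
    obtain ⟨a, ha⟩ := IsAlgClosed.exists_root U (by
      rw [degree_eq_natDegree hU, hn]; exact_mod_cast Nat.succ_ne_zero n)
    obtain ⟨U1, rfl⟩ := dvd_iff_isRoot.2 ha
    have hU1 : U1 ≠ 0 := right_ne_zero_of_mul hU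
    have hX := X_sub_C_ne_zero a
    obtain ⟨b, hb, hE⟩ : ∃ b, On f (a, b) ∧ 0 < E (a, b) := by
      obtain ⟨b, hb⟩ := IsAlgClosed.exists_pow_nat_eq (f.eval a) (show 0 < 2 by norm_num)
      have hP : On f (a, b) := hb
      have h1 := h (a, b)
      have h2 := ord_nonneg (nm_ne_pc (f := f) hU1) (a, b)
      have h3 := dl_nonneg (a, b) (io (a, b))
      rw [opc_mul hX hU1, opc_lin hP, dl_self] at h1
      by_cases h4 : 0 < E (a, b)
      · exact ⟨b, hP, h4⟩
      · exact ⟨-b, on_io.2 hP, by have := h0 (a, b); show 0 < E (io (a, b)); omega⟩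
    rw [natDegree_mul hX hU1, natDegree_X_sub_C] at hn
    obtain ⟨s, h1, h2, h3⟩ := ih U1 (E - dl (a, b)) (by omega) hU1 (fun P => by
      by_cases hP : P = (a, b)
      · rw [Pi.sub_apply, hP, dl_self]; omega
      · rw [Pi.sub_apply, dl_ne hP, sub_zero]; exact h0 P) fun P => by
      have := h P
      rw [opc_mul hX hU1, opc_lin hb] at this
      simp only [Pi.sub_apply]
      omega
    refine ⟨(a, b) ::ₘ s, by simp [h1], fun P hP => ?_, by rw [cnt_cons, ← h3]; abel⟩
    rcases Multiset.mem_cons.1 hP with rfl | hP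
    · exact hb
    · exact h2 P hP

end Clox

open Clox in
theorem clo : S_CLO := by
  intro k _ _ _ e S D N φ u v hf hD hφ hV hdeg huv hv hu h1 h2
  classical
  have he : Function.Injective e := separable_prod_X_sub_C_iff.1 hf.sep
  have hOn : ∀ p, D.n p ≠ 0 → On (fz e) (D.x p, D.y p) := fun p hp => hD.1.pts.eqn ⟨p, hp⟩
  set F : k × k → ℤ := ∑ p, ((2 * N * D.n p : ℕ) : ℤ) • dl (io (D.x p, D.y p)) with hF
  have Fa : ∀ P, F P = ∑ p, ((2 * N * D.n p : ℕ) : ℤ) * dl (io (D.x p, D.y p)) P := fun P => by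
    simp [hF, Finset.sum_apply]
  have F0 : ∀ P : k × k, (∀ p, D.n p ≠ 0 → P ≠ io (D.x p, D.y p)) → F P = 0 := fun P h => by
    rw [Fa]
    refine Finset.sum_eq_zero fun p _ => ?_
    by_cases hp : D.n p = 0
    · simp [hp]
    · rw [dl_ne (h p hp), mul_zero]
  have E0 : ∀ P, 0 ≤ (ord φ - F) P := fun P => by
    rw [Pi.sub_apply, sub_nonneg]
    by_cases h : ∀ p, D.n p ≠ 0 → P ≠ io (D.x p, D.y p)
    · rw [F0 P h]; exact ord_nonneg hφ P
    · push Not at h
      obtain ⟨p, hp, rfl⟩ := h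
      rw [Fa, Finset.sum_eq_single p, dl_self, mul_one]
      · exact Van.le (P := io (D.x p, D.y p)) (hV p hp) hφ (on_io.2 (hOn p hp))
          (neg_ne_zero.2 (hD.1.pts.uy ⟨p, hp⟩).ne_zero)
      · intro q _ hq
        by_cases h0 : D.n q = 0
        · simp [h0]
        · rw [dl_ne, mul_zero]
          exact fun h3 => (hD.1.pts.dx ⟨p, hp⟩ ⟨q, h0⟩ (by simpa using hq.symm)).ne_zero
            (sub_eq_zero.2 (congrArg Prod.fst h3))
      · simp
  set W : k[X] := ∏ p, (X - C (D.x p)) ^ (2 * N * D.n p) with hW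
  have n1 : ∀ p, (X - C (D.x p)) ^ (2 * N * D.n p) ≠ 0 := fun p => pow_ne_zero _ (X_sub_C_ne_zero _)
  have W0 : W ≠ 0 := Finset.prod_ne_zero_iff.2 fun p _ => n1 p
  have oW : ∀ P, ord (pc (fz e) W) P = F P + F (io P) := fun P => by
    rw [hW, opc_prod _ _ n1, Fa, Fa, ← Finset.sum_add_distrib]
    refine Finset.sum_congr rfl fun p _ => ?_
    rw [opc_pow (X_sub_C_ne_zero _)]
    by_cases hp : D.n p = 0
    · simp [hp]
    · rw [opc_lin (b := -D.y p) (on_io.2 (hOn p hp)), mul_add]; rfl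
  obtain ⟨χ, hχ⟩ := pc_dvd hf _ rfl W0 (nm_ne_pc hφ) fun P => by
    have a1 := E0 P
    have a2 := E0 (io P)
    rw [Pi.sub_apply] at a1 a2
    rw [oW, opc_nm hφ]; omega
  rw [pc_mul] at hχ
  have hU : nm φ = W * χ.re := congrArg QuadraticAlgebra.re hχ
  have U0 : χ.re ≠ 0 := right_ne_zero_of_mul (hU ▸ hφ)
  have dU : χ.re.natDegree ≤ 3 := by
    rw [hU, natDegree_mul W0 U0, hW, natDegree_prod _ _ fun p _ => n1 p] at hdeg
    simp only [natDegree_pow, natDegree_X_sub_C, mul_one, ← Finset.mul_sum] at hdeg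
    omega
  obtain ⟨s, s1, s2, s3⟩ := to_ms (f := fz e) _ χ.re (ord φ - F) rfl U0 E0 fun P => by
    have := opc_nm hφ P
    rw [hU, opc_mul W0 U0, oW] at this
    simp only [Pi.sub_apply]
    omega
  have hH : cnt s ∈ HH (fz e) S := by
    rw [← s3]
    refine sub_mem (ord_mem S hφ) ?_
    have e1 : F = ∑ p, ((2 * N * D.n p : ℕ) : ℤ) • (dl (D.x p, D.y p) + dl (io (D.x p, D.y p))) -
        (2 * N : ℤ) • dE e D + ∑ i ∈ D.β, (N : ℤ) • (dl (e i, 0) + dl (io (e i, 0))) := by
      simp only [hF, dE, io, neg_zero, smul_add, Finset.sum_add_distrib, Finset.smul_sum, smul_smul,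
        Nat.cast_mul, Nat.cast_ofNat, two_mul (N : ℤ), add_smul, add_mul]
      abel
    rw [e1]
    refine add_mem (sub_mem (sum_mem fun p _ => ?_) (zsmul_mem hD.2 _))
      (sum_mem fun i _ => zsmul_mem (pair_mem S (on_e e i)) _)
    by_cases hp : D.n p = 0
    · simp [hp]
    · exact zsmul_mem (pair_mem S (hOn p hp)) _
  obtain ⟨s', a1, a2, a3, a4⟩ := reduce S _ s le_rfl s2 hH
  obtain ⟨D', b1, b2, b3⟩ := build he ((Multiset.card_le_card a1).trans (s1 ▸ dU))
    (fun P hP => s2 P (Multiset.mem_of_le a1 hP)) a2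
  refine ⟨D', ⟨b1, b2 ▸ a3⟩, b3 (u, v) (a4 _ ?_ ?_) hv⟩
  · have c1 := congrFun s3 (u, v)
    have c2 := (ord_pos (P := (u, v)) hφ huv).2 h1
    rw [Pi.sub_apply, F0 _ fun p hp h => hu p hp (congrArg Prod.fst h), cnt] at c1
    exact Multiset.count_pos.1 (by omega)
  · have c1 := congrFun s3 (io (u, v))
    have c2 := (ord_pos (P := io (u, v)) hφ (on_io.2 huv)).not.2 fun h =>
      mul_ne_zero h2 hv (by simp only [io] at h; linear_combination (1 / 2 : k) * (h1 - h))
    rw [Pi.sub_apply, F0 _ fun p hp h => hu p hp (congrArg Prod.fst h), cnt] at c1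
    exact Multiset.count_eq_zero.1 (by omega)

end

end Pool.Agent.MP_8d06cc_nt.RED
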