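import Pool.Agent.MP_8d06cc_nt.RED.Asm
import Pool.Agent.MP_8d06cc_nt.RED.Clo
import Pool.Agent.MP_8d06cc_nt.AB.Ult

/-! Block RED. -/

namespace Pool.Agent.MP_8d06cc_nt.RED

theorem red : AB.StmtRED := red_of clo AB.ult.ac

end Pool.Agent.MP_8d06cc_nt.RED
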