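import Pool.Agent.MP_8d06cc_nt.RED.Defs

/-! Finiteness of the set of reduced divisors in torsion classes. -/

set_option autoImplicit false
set_option linter.unusedSectionVars false

namespace Pool.Agent.MP_8d06cc_nt.RED

open Polynomial AB

noncomputable section

namespace Finx

variable {k : Type} [Field k] {f : k[X]}

theorem pc_mul_pc (g h : k[X]) : pc f (g * h) = pc f g * pc f h := by
  rw [pc_mul]; simp [pc]

theorem dl_self (P : k × k) : dl P P = 1 := by simp [dl]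

theorem dl_ne {P Q : k × k} (h : Q ≠ P) : dl P Q = 0 := by
  classical
  simp [dl, h]

theorem dl_nonneg (P Q : k × k) : 0 ≤ dl P Q := by
  by_cases h : Q = P
  · rw [h, dl_self]; norm_num
  · rw [dl_ne h]

theorem dE_apply (e : Fin 8 → k) (D : Dv k) (P : k × k) : dE e D P =
    ∑ p, (D.n p : ℤ) * dl (D.x p, D.y p) P + ∑ i ∈ D.β, dl (e i, 0) P := by
  simp [dE, Finset.sum_apply]

theorem dE_nonneg (e : Fin 8 → k) (D : Dv k) (P : k × k) : 0 ≤ dE e D P := by
  rw [dE_apply]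
  exact add_nonneg (Finset.sum_nonneg fun p _ => mul_nonneg (by positivity) (dl_nonneg _ _))
    (Finset.sum_nonneg fun i _ => dl_nonneg _ _)

theorem dE_pos (e : Fin 8 → k) (D : Dv k) {p : Fin 3} (h : D.n p ≠ 0) :
    dE e D (D.x p, D.y p) ≠ 0 := by
  rw [dE_apply]
  have h1 := Finset.single_le_sum (f := fun q => (D.n q : ℤ) * dl (D.x q, D.y q) (D.x p, D.y p))
    (fun q _ => mul_nonneg (by positivity) (dl_nonneg _ _)) (Finset.mem_univ p)
  have h2 : 0 ≤ ∑ i ∈ D.β, dl (e i, 0) (D.x p, D.y p) := Finset.sum_nonneg fun i _ => dl_nonneg _ _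
  simp only [dl_self] at h1
  omega

theorem dE_supp (e : Fin 8 → k) (D : Dv k) {P : k × k} (h : dE e D P ≠ 0) :
    (∃ p, D.n p ≠ 0 ∧ P = (D.x p, D.y p)) ∨ ∃ i, P = (e i, 0) := by
  by_contra hc
  push Not at hc
  apply h
  rw [dE_apply, Finset.sum_eq_zero, Finset.sum_eq_zero, add_zero]
  · exact fun i _ => dl_ne (hc.2 i)
  · intro p _
    by_cases hp : D.n p = 0
    · simp [hp]
    · rw [dl_ne (hc.1 p hp), mul_zero]

theorem dE_nb {e : Fin 8 → k} {D : Dv k} [CharZero k] (hD : D.Red e) {P : k × k} (h : P.2 ≠ 0) :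
    dE e D P = 0 ∨ dE e D (io P) = 0 := by
  by_contra hc
  push Not at hc
  rcases dE_supp e D hc.1 with ⟨p, hp, rfl⟩ | ⟨i, rfl⟩
  · rcases dE_supp e D hc.2 with ⟨q, hq, h2⟩ | ⟨i, h2⟩
    · simp only [io, Prod.mk.injEq] at h2
      by_cases hpq : p = q
      · subst hpq
        exact h (by have := h2.2; show D.y p = 0; linear_combination (-1 / 2 : k) * this)
      · exact (hD.pts.dx ⟨p, hp⟩ ⟨q, hq⟩ (by simpa using hpq)).ne_zero (sub_eq_zero.2 h2.1)
    · simp only [io, Prod.mk.injEq] at h2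
      exact h (neg_eq_zero.1 h2.2)
  · exact h rfl

theorem dE_br {e : Fin 8 → k} {D : Dv k} (hD : D.Red e) {P : k × k} (h : P.2 = 0) :
    dE e D P ≤ 1 := by
  rw [dE_apply, Finset.sum_eq_zero, zero_add]
  · by_cases hi : ∃ i ∈ D.β, P = (e i, 0)
    · obtain ⟨i, hi, rfl⟩ := hi
      rw [Finset.sum_eq_single i, dl_self]
      · intro j _ hj
        refine dl_ne fun h2 => (hD.pts.de i j hj.symm).ne_zero (sub_eq_zero.2 ?_)
        exact congrArg Prod.fst h2
      · exact fun h => absurd hi h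
    · push Not at hi
      rw [Finset.sum_eq_zero fun i h => dl_ne (hi i h)]
      norm_num
  · intro p _
    by_cases hp : D.n p = 0
    · simp [hp]
    · rw [dl_ne, mul_zero]
      rintro rfl
      exact (hD.pts.uy ⟨p, hp⟩).ne_zero h

variable [CharZero k]

theorem ord_le {φ : R f} (h : nm φ ≠ 0) (P : k × k) :
    ord φ P ≤ rootMultiplicity P.1 (nm φ) := by
  by_cases hP : On f P
  · by_cases h0 : P.2 = 0
    · rw [ord_br _ hP h0]
    · have := ord_add h hP h0
      have := ord_nonneg h (io P)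
      omega
  · rw [ord_off _ hP]; positivity

theorem opc_mul {g h : k[X]} (hg : g ≠ 0) (hh : h ≠ 0) (P : k × k) :
    ord (pc f (g * h)) P = ord (pc f g) P + ord (pc f h) P := by
  rw [pc_mul_pc, ord_mul (nm_ne_pc hg) (nm_ne_pc hh)]

theorem opc_one (P : k × k) : ord (pc f 1) P = 0 := by
  have := opc_mul (f := f) one_ne_zero one_ne_zero P
  rw [mul_one] at this
  omega

theorem opc_prod {ι : Type} (s : Finset ι) (g : ι → k[X]) (h : ∀ i, g i ≠ 0) (P : k × k) :
    ord (pc f (∏ i ∈ s, g i)) P = ∑ i ∈ s, ord (pc f (g i)) P := by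
  classical
  induction s using Finset.induction_on with
  | empty => simpa using opc_one P
  | insert a s ha ih =>
    rw [Finset.prod_insert ha, Finset.sum_insert ha,
      opc_mul (h a) (Finset.prod_ne_zero_iff.2 fun i _ => h i), ih]

theorem opc_pow {g : k[X]} (h : g ≠ 0) (n : ℕ) (P : k × k) :
    ord (pc f (g ^ n)) P = n * ord (pc f g) P := by
  have := opc_prod (f := f) (Finset.range n) (fun _ => g) (fun _ => h) P
  simpa using this

theorem opc_lin {a b : k} (h : On f (a, b)) (P : k × k) :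
    ord (pc f (X - C a)) P = dl (a, b) P + dl (a, b) (io P) := by
  classical
  by_cases hP : On f P
  · by_cases ha : P.1 = a
    · obtain ⟨u, v⟩ := P
      subst ha
      have hv : v = b ∨ v = -b := sq_eq_sq_iff_eq_or_eq_neg.1 (hP.trans h.symm)
      by_cases h0 : v = 0
      · have hb : b = 0 := by rcases hv with hv | hv <;> simpa [h0] using hv.symm
        rw [ord_pc_br (X_sub_C_ne_zero _) hP h0, rootMultiplicity_X_sub_C_self, h0, hb]
        simp [io, dl_self]
      · rw [ord_pc_nb (X_sub_C_ne_zero _) hP h0, rootMultiplicity_X_sub_C_self]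
        have hn : v ≠ -v := fun h2 => h0 (by linear_combination (1 / 2 : k) * h2)
        rcases hv with rfl | rfl
        · rw [dl_self, dl_ne (by simpa [io] using hn.symm)]; rfl
        · rw [dl_ne (by simpa using hn)]; simp [io, dl_self]
    · have h1 := ord_le (nm_ne_pc (f := f) (X_sub_C_ne_zero a)) P
      have h2 := ord_nonneg (nm_ne_pc (f := f) (X_sub_C_ne_zero a)) P
      rw [mult_nm_pc (X_sub_C_ne_zero a), rootMultiplicity_X_sub_C, if_neg ha] at h1
      rw [dl_ne fun h => ha (congrArg Prod.fst h), dl_ne fun h => ha (congrArg Prod.fst h)]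
      omega
  · rw [ord_off _ hP, dl_ne, dl_ne, add_zero]
    · exact fun h2 => hP (on_io.1 (h2 ▸ h))
    · exact fun h2 => hP (h2 ▸ h)

/-- the polynomial of the abscissas -/
def UU (e : Fin 8 → k) (D : Dv k) : k[X] := (∏ p, (X - C (D.x p)) ^ D.n p) * ∏ i ∈ D.β, (X - C (e i))

omit [CharZero k] in
theorem UU_mon (e : Fin 8 → k) (D : Dv k) : (UU e D).Monic :=
  (monic_prod_of_monic _ _ fun _ _ => (monic_X_sub_C _).pow _).mul
    (monic_prod_of_monic _ _ fun _ _ => monic_X_sub_C _)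

omit [CharZero k] in
theorem UU_deg {e : Fin 8 → k} {D : Dv k} (hD : D.Red e) : (UU e D).natDegree ≤ 3 := by
  have h1 := hD.deg
  have h2 := natDegree_prod_le Finset.univ fun p => (X - C (D.x p)) ^ D.n p
  have h3 := natDegree_prod_le D.β fun i => X - C (e i)
  simp only [natDegree_pow, natDegree_X_sub_C, mul_one, Finset.sum_const, smul_eq_mul] at h2 h3
  refine natDegree_mul_le.trans ?_
  unfold Dv.r at h1
  omega

theorem ord_UU {e : Fin 8 → k} {D : Dv k} (hD : D.Red e) (P : k × k) :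
    ord (pc (fz e) (UU e D)) P = dE e D P + dE e D (io P) := by
  have n1 : ∀ p, (X - C (D.x p)) ^ D.n p ≠ 0 := fun p => pow_ne_zero _ (X_sub_C_ne_zero _)
  rw [UU, opc_mul (Finset.prod_ne_zero_iff.2 fun p _ => n1 p)
    (Finset.prod_ne_zero_iff.2 fun i _ => X_sub_C_ne_zero _), opc_prod _ _ n1,
    opc_prod _ _ fun i => X_sub_C_ne_zero _, dE_apply, dE_apply, add_add_add_comm,
    ← Finset.sum_add_distrib, ← Finset.sum_add_distrib]
  congr 1
  · refine Finset.sum_congr rfl fun p _ => ?_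
    rw [opc_pow (X_sub_C_ne_zero _)]
    by_cases hp : D.n p = 0
    · simp [hp]
    · rw [opc_lin (b := D.y p) (hD.pts.eqn ⟨p, hp⟩), mul_add]
  · refine Finset.sum_congr rfl fun i _ => opc_lin ?_ P
    simp only [On, fz, eval_prod]
    rw [Finset.prod_eq_zero (Finset.mem_univ i) (by simp)]
    simp

theorem root_dvd [IsAlgClosed k] (hf : Oct f) {φ : R f} (h : nm φ ≠ 0) {a : k}
    (H : ∀ P, ord (pc f (X - C a)) P ≤ ord φ P) : ∃ χ, φ = pc f (X - C a) * χ := by
  obtain ⟨b, hb⟩ := IsAlgClosed.exists_pow_nat_eq (f.eval a) (show 0 < 2 by norm_num)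
  have hP : On f (a, b) := hb
  have key : φ.re.eval a = 0 ∧ φ.im.eval a = 0 := by
    have h1 := H (a, b)
    by_cases h0 : b = 0
    · rw [ord_pc_br (X_sub_C_ne_zero _) hP h0, rootMultiplicity_X_sub_C_self] at h1
      have hA := (ord_pos h hP).1 (by omega)
      simp only [h0, mul_zero, add_zero] at hA
      refine ⟨hA, ?_⟩
      rw [ord_br _ hP h0] at h1
      have h2 : (X - C a) ^ 2 ∣ nm φ := (le_rootMultiplicity_iff h).1 (by simpa using h1)
      have h3 : (X - C a) ^ 2 ∣ φ.re ^ 2 := pow_dvd_pow_of_dvd (dvd_iff_isRoot.2 hA) 2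
      have h4 : (X - C a) ^ 2 ∣ f * φ.im ^ 2 := by
        have := dvd_sub h3 h2
        rwa [nm, sub_sub_cancel] at this
      obtain ⟨f1, hf1⟩ := dvd_iff_isRoot.2 (show f.IsRoot a by rw [IsRoot, ← hb, h0]; simp)
      generalize φ.im = B at h4 ⊢
      rw [hf1, sq (X - C a), mul_assoc, mul_dvd_mul_iff_left (X_sub_C_ne_zero a)] at h4
      have h5 := dvd_iff_isRoot.1 h4
      rw [IsRoot, eval_mul, eval_pow, mul_eq_zero] at h5
      rcases h5 with h5 | h5
      · exact absurd (hf.sep.squarefree (X - C a)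
          (hf1 ▸ mul_dvd_mul_left _ (dvd_iff_isRoot.2 h5))) (not_isUnit_X_sub_C a)
      · exact pow_eq_zero_iff two_ne_zero |>.1 h5
    · have h2 := H (io (a, b))
      rw [ord_pc_io] at h2
      rw [ord_pc_nb (X_sub_C_ne_zero _) hP h0, rootMultiplicity_X_sub_C_self] at h1 h2
      have e1 := (ord_pos h hP).1 (by omega)
      have e2 := (ord_pos h (on_io.2 hP)).1 (by omega)
      simp only [io] at e1 e2
      refine ⟨by linear_combination (1 / 2 : k) * (e1 + e2), ?_⟩
      exact (mul_eq_zero.1 (show φ.im.eval a * b = 0 by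
        linear_combination (1 / 2 : k) * (e1 - e2))).resolve_right h0
  obtain ⟨A, hA⟩ := dvd_iff_isRoot.2 key.1
  obtain ⟨B, hB⟩ := dvd_iff_isRoot.2 key.2
  refine ⟨⟨A, B⟩, ?_⟩
  rw [pc_mul]
  ext1
  · exact hA
  · exact hB

theorem pc_dvd [IsAlgClosed k] (hf : Oct f) (n : ℕ) : ∀ {g : k[X]} {φ : R f}, g.natDegree = n →
    g ≠ 0 → nm φ ≠ 0 → (∀ P, ord (pc f g) P ≤ ord φ P) → ∃ χ, φ = pc f g * χ := by
  induction n with
  | zero =>
    intro g φ hn hg _ _
    rw [eq_C_of_natDegree_eq_zero hn] at hg ⊢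
    refine ⟨pc f (C (g.coeff 0)⁻¹) * φ, ?_⟩
    rw [← mul_assoc, ← pc_mul_pc, ← C_mul, mul_inv_cancel₀ (by simpa using hg), pc_mul]
    simp
  | succ n ih =>
    intro g φ hn hg h H
    obtain ⟨a, ha⟩ := IsAlgClosed.exists_root g (by
      rw [degree_eq_natDegree hg, hn]; exact_mod_cast Nat.succ_ne_zero n)
    obtain ⟨g1, rfl⟩ := dvd_iff_isRoot.2 ha
    have hg1 : g1 ≠ 0 := right_ne_zero_of_mul hg
    have hX := X_sub_C_ne_zero a
    obtain ⟨χ, rfl⟩ := root_dvd hf h (a := a) fun P => by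
      have := H P
      have := ord_nonneg (nm_ne_pc (f := f) hg1) P
      rw [opc_mul hX hg1] at *
      omega
    have hχ : nm χ ≠ 0 := right_ne_zero_of_mul (nm_mul _ χ ▸ h)
    rw [natDegree_mul hX hg1, natDegree_X_sub_C] at hn
    obtain ⟨χ', rfl⟩ := ih (g := g1) (φ := χ) (by omega) hg1 hχ fun P => by
      have := H P
      rw [opc_mul hX hg1, ord_mul (nm_ne_pc hX) hχ] at this
      omega
    exact ⟨χ', by rw [pc_mul_pc, mul_assoc]⟩

theorem deg_le [IsAlgClosed k] (hf : Oct f) {g h : k[X]} (hg : g ≠ 0) (hh : h ≠ 0)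
    (H : ∀ P, ord (pc f g) P ≤ ord (pc f h) P) : g.natDegree ≤ h.natDegree := by
  obtain ⟨χ, hχ⟩ := pc_dvd hf _ rfl hg (nm_ne_pc hh) H
  rw [pc_mul] at hχ
  exact natDegree_le_of_dvd ⟨χ.re, congrArg QuadraticAlgebra.re hχ⟩ hh

theorem opc_nm {φ : R f} (h : nm φ ≠ 0) (P : k × k) :
    ord (pc f (nm φ)) P = ord φ P + ord φ (io P) := by
  rw [← mul_cj, ord_mul h (nm_ne_cj h), ord_cj]

theorem prin_form (hf : Oct f) {g : (k × k → ℤ) × ℤ} (hg : g ∈ Prin f) : ∃ φ ψ : R f,
    nm φ ≠ 0 ∧ nm ψ ≠ 0 ∧ (∀ P, g.1 P = ord φ P - ord ψ P) ∧ g.2 = oi (-1) φ - oi (-1) ψ := by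
  have s : (-1 : k) ^ 2 = 1 := by simp
  have o : nm (pc f 1) ≠ 0 := nm_ne_pc one_ne_zero
  induction hg using AddSubgroup.closure_induction with
  | mem x hx =>
    obtain ⟨φ, h, rfl⟩ := hx
    exact ⟨φ, pc f 1, h, o, fun P => by simp [opc_one], by simp [oi_pc one_ne_zero]⟩
  | zero => exact ⟨pc f 1, pc f 1, o, o, by simp, by simp⟩
  | add x y _ _ hx hy =>
    obtain ⟨φ, ψ, h1, h2, h3, h4⟩ := hx
    obtain ⟨φ', ψ', h1', h2', h3', h4'⟩ := hy
    refine ⟨φ * φ', ψ * ψ', nm_ne_mul h1 h1', nm_ne_mul h2 h2', fun P => ?_, ?_⟩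
    · rw [ord_mul h1 h1', ord_mul h2 h2', Prod.fst_add, Pi.add_apply, h3, h3']; ring
    · rw [oi_mul hf s h1 h1', oi_mul hf s h2 h2', Prod.snd_add, h4, h4']; ring
  | neg x _ hx =>
    obtain ⟨φ, ψ, h1, h2, h3, h4⟩ := hx
    exact ⟨ψ, φ, h2, h1, fun P => by simp [h3], by simp [h4]⟩

theorem uniq [IsAlgClosed k] {e : Fin 8 → k} (hf : Oct (fz e)) {D1 D2 : Dv k} (h1 : D1.Red e)
    (h2 : D2.Red e) (h : (dE e D1, (0 : ℤ)) - (dE e D2, 0) ∈ Prin (fz e)) : dE e D1 = dE e D2 := by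
  have s : (-1 : k) ^ 2 = 1 := by simp
  obtain ⟨φ, ψ, hφ, hψ, ho, hi⟩ := prin_form hf h
  simp only [Prod.mk_sub_mk, Pi.sub_apply, sub_self] at ho hi
  have u1 := (UU_mon e D1).ne_zero
  have u2 := (UU_mon e D2).ne_zero
  have n1 := nm_ne_mul hφ (nm_ne_cj hψ)
  have n2 := nm_ne_mul n1 (nm_ne_pc u2)
  have hθ : ∀ P, ord (φ * cj ψ * pc _ (UU e D2)) P =
      ord (pc (fz e) (nm ψ)) P + (dE e D1 P + dE e D2 (io P)) := fun P => by
    rw [ord_mul n1 (nm_ne_pc u2), ord_mul hφ (nm_ne_cj hψ), ord_cj, ord_UU h2, opc_nm hψ]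
    have := ho P
    omega
  obtain ⟨χ, hχ⟩ := pc_dvd hf _ rfl hψ n2 fun P => by
    have := dE_nonneg e D1 P
    have := dE_nonneg e D2 (io P)
    rw [hθ]; omega
  have nχ : nm χ ≠ 0 := right_ne_zero_of_mul (nm_mul _ χ ▸ hχ ▸ n2)
  have oχ : ∀ P, ord χ P = dE e D1 P + dE e D2 (io P) := fun P => by
    have := hθ P
    rw [hχ, ord_mul (nm_ne_pc hψ) nχ] at this
    omega
  have i1 := congrArg (oi (-1)) hχ
  rw [oi_mul hf s n1 (nm_ne_pc u2), oi_mul hf s hφ (nm_ne_cj hψ), oi_cj _ hf s,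
    oi_mul hf s (nm_ne_pc hψ) nχ, oi_pc u2, oi_pc hψ] at i1
  have i2 := oi_add hf s hψ
  have i3 := oi_add hf s nχ
  have i4 := deg_le hf nχ (mul_ne_zero u1 u2) fun P => by
    rw [opc_nm nχ, opc_mul u1 u2, ord_UU h1, ord_UU h2, oχ, oχ, io_io]
    omega
  rw [natDegree_mul u1 u2] at i4
  have d1 := UU_deg h1
  have d2 := UU_deg h2
  rw [neg_neg] at i1 i2 i3
  have him : χ.im = 0 := by
    by_contra hc
    have := (deg_of_oi (M := 3) hf nχ (by omega) (by omega)).2 hc
    omega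
  have hpc : χ = pc _ χ.re := by ext1 <;> simp [pc, him]
  have hre : χ.re ≠ 0 := fun h0 => nχ (by simp [nm, h0, him])
  funext P
  have a1 := oχ P
  have a2 := oχ (io P)
  rw [io_io] at a2
  have a3 : ord χ (io P) = ord χ P := by rw [hpc, ord_pc_io]
  have := dE_nonneg e D1 P
  have := dE_nonneg e D2 P
  have := dE_nonneg e D1 (io P)
  have := dE_nonneg e D2 (io P)
  by_cases h0 : P.2 = 0
  · have hP : io P = P := by simp [io, Prod.ext_iff, h0]
    rw [hP] at a1
    have := dE_br h1 h0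
    have := dE_br h2 h0
    by_cases hO : On (fz e) P
    · rw [hpc, ord_pc_br hre hO h0] at a1
      omega
    · rw [ord_off _ hO] at a1
      omega
  · have := dE_nb h1 h0
    have := dE_nb h2 h0
    omega

omit [CharZero k] in
theorem box_fin {T : Set (k × k)} (hT : T.Finite) :
    {D : Dv k | (∀ p, (D.x p, D.y p) ∈ T) ∧ (∀ p, D.n p ≤ 3) ∧ D.μ ≤ 3}.Finite := by
  have h := (Set.Finite.pi' fun _ : Fin 3 => hT).prod ((Set.Finite.pi' fun _ : Fin 3 =>
    Set.finite_Iic 3).prod ((Set.finite_univ (α := Finset (Fin 8))).prod (Set.finite_Iic 3)))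
  refine (h.preimage (f := fun D : Dv k => (fun p => (D.x p, D.y p), D.n, D.β, D.μ)) ?_).subset ?_
  · rintro ⟨x, y, n, β, μ⟩ - ⟨x', y', n', β', μ'⟩ - h
    simp only [Prod.mk.injEq, funext_iff] at h
    obtain ⟨h1, h2, rfl, rfl⟩ := h
    obtain rfl : x = x' := funext fun p => (h1 p).1
    obtain rfl : y = y' := funext fun p => (h1 p).2
    obtain rfl : n = n' := funext h2
    rfl
  · rintro D ⟨h1, h2, h3⟩
    exact ⟨h1, h2, trivial, h3⟩

omit [CharZero k] in
theorem fib_fin (e : Fin 8 → k) (D0 : Dv k) : {D : Dv k | D.Red e ∧ dE e D = dE e D0}.Finite := by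
  refine (box_fin (((Set.finite_range fun p => (D0.x p, D0.y p)).union
    (Set.finite_range fun i => (e i, (0 : k)))).insert (0, 0))).subset ?_
  rintro D ⟨hD, h⟩
  have h1 := hD.deg
  unfold Dv.r at h1
  refine ⟨fun p => ?_, fun p => ?_, by omega⟩
  · by_cases hp : D.n p = 0
    · rw [(hD.junk p hp).1, (hD.junk p hp).2]; exact Set.mem_insert _ _
    · have := dE_pos e D hp
      rw [h] at this
      rcases dE_supp e D0 this with ⟨q, -, hq⟩ | ⟨i, hi⟩
      · exact Or.inr (Or.inl ⟨q, hq.symm⟩)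
      · exact Or.inr (Or.inr ⟨i, hi.symm⟩)
  · have := Finset.single_le_sum (f := D.n) (fun _ _ => Nat.zero_le _) (Finset.mem_univ p)
    omega

theorem ord_tor {φ : R f} {a b c : k} {n : ℕ} (hc : c ≠ 0) (hP : On f (a, b))
    (h : nm φ = C c * (X - C a) ^ n) (hA : φ.re.eval a ≠ 0)
    (hs : φ.re.eval a + φ.im.eval a * b = 0) : ord φ = (n : ℤ) • dl (a, b) := by
  classical
  have hX := pow_ne_zero n (X_sub_C_ne_zero a)
  have hn : nm φ ≠ 0 := h ▸ mul_ne_zero (C_ne_zero.2 hc) hX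
  have hb : b ≠ 0 := fun h0 => hA (by simpa [h0] using hs)
  have hm : ∀ u, rootMultiplicity u (nm φ) = if u = a then n else 0 := fun u => by
    rw [h, rootMultiplicity_mul (h ▸ hn), rootMultiplicity_C, zero_add]
    split_ifs with hu
    · rw [hu, rootMultiplicity_X_sub_C_pow]
    · exact rootMultiplicity_eq_zero (by simp [sub_eq_zero, hu])
  have h0 : ord φ (io (a, b)) = 0 := by
    have h1 := ord_nonneg hn (io (a, b))
    have h2 := (ord_pos hn (on_io.2 hP)).not.2 fun h3 => hA (by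
      simp only [io] at h3; linear_combination (1 / 2 : k) * (hs + h3))
    omega
  funext P
  rw [Pi.smul_apply, smul_eq_mul]
  by_cases h1 : P = (a, b)
  · have := ord_add hn hP hb
    rw [hm, if_pos rfl] at this
    rw [h1, dl_self]; omega
  · rw [dl_ne h1, mul_zero]
    by_cases hO : On f P
    · by_cases ha : P.1 = a
      · obtain ⟨u, v⟩ := P
        subst ha
        rcases sq_eq_sq_iff_eq_or_eq_neg.1 (hO.trans hP.symm) with hv | hv
        · exact (h1 (Prod.ext rfl hv)).elim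
        · rw [← h0]; exact congrArg _ (Prod.ext rfl hv)
      · have h2 := ord_le hn P
        have h3 := ord_nonneg hn P
        rw [hm, if_neg ha] at h2
        omega
    · exact ord_off _ hO

theorem pt_zero {a b : k} {p : Fin 3} (h : (Dv.pt a b).n p ≠ 0) : p = 0 := by
  fin_cases p
  · rfl
  · exact absurd rfl h
  · exact absurd rfl h

end Finx

open Finx in
theorem fin : S_FIN := by
  intro k _ _ _ m z N T e hT hz
  have hf : Oct (fz e) := ⟨hz ▸ z.mon, hz ▸ z.deg, hz ▸ z.sep⟩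
  have he : Function.Injective e := separable_prod_X_sub_C_iff.1 hf.sep
  have de : ∀ i j, i ≠ j → IsUnit (e i - e j) := fun i j h =>
    IsUnit.mk0 _ (sub_ne_zero.2 (he.ne h))
  set S := Set.range fun i => (z.a i, z.b i) with hS
  refine ⟨?_, fun i => ⟨⟨by simp [Dv.r, Dv.pt, Fin.sum_univ_three], ⟨de, ?_, ?_, ?_⟩, ?_⟩, ?_⟩,
    ⟨⟨by simp [Dv.r, Dv.inf], ⟨de, ?_, ?_, ?_⟩, ?_⟩, ?_⟩⟩
  · set π := QuotientAddGroup.mk' (Prin (fz e)) with hπ
    set W : Set ((k × k → ℤ) × ℤ) := insert (0, 1) ((fun P => (dl P, 0)) '' S) with hW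
    have hWf : (π '' W).Finite := (((Set.finite_range _).image _).insert _).image _
    have t0 : IsOfFinAddOrder (π (0, 1)) := by
      obtain ⟨c, hc, h⟩ := hT.eq0
      set φ : R (fz e) := ⟨T.A0, T.B0⟩ with hφ
      have h1 : nm φ = C c := by rw [← h, hz]; rfl
      have hn : nm φ ≠ 0 := h1 ▸ C_ne_zero.2 hc
      have h2 : ord φ = 0 := funext fun P => by
        have := ord_le hn P
        have := ord_nonneg hn P
        rw [h1, rootMultiplicity_C] at *
        show ord φ P = 0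
        omega
      have h3 := oi_add hf (one_pow 2) hn
      rw [h1, natDegree_C] at h3
      have d1 := hT.dA0
      have d2 := hT.dB0
      refine isOfFinAddOrder_iff_zsmul_eq_zero.2 ⟨oi (-1) φ, fun h4 => ?_, ?_⟩
      · have := (deg_of_oi (M := 0) hf hn (by omega) (by omega)).1 (fun h5 => by
          rw [show T.A0 = 0 from h5, natDegree_zero] at d1; omega)
        rw [show φ.re = T.A0 from rfl] at this
        omega
      · rw [← map_zsmul]
        exact (QuotientAddGroup.eq_zero_iff _).2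
          (AddSubgroup.subset_closure ⟨φ, hn, by simp [h2]⟩)
    have t1 : AddSubgroup.closure (π '' W) ≤ AddCommGroup.torsion _ := by
      rw [AddSubgroup.closure_le]
      rintro _ ⟨_, rfl | ⟨_, ⟨i, rfl⟩, rfl⟩, rfl⟩
      · exact t0
      · obtain ⟨c, hc, h⟩ := hT.eqn i
        set φ : R (fz e) := ⟨T.A i, T.B i⟩ with hφ
        have h1 : nm φ = C c * (X - C (z.a i)) ^ (2 * N) := by rw [← h, hz]; rfl
        have h2 := ord_tor hc (show On (fz e) (z.a i, z.b i) from hz ▸ z.hb i) h1 (hT.hA i)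
          (hT.sgn i)
        have hn : nm φ ≠ 0 := h1 ▸ mul_ne_zero (C_ne_zero.2 hc) (pow_ne_zero _ (X_sub_C_ne_zero _))
        have h3 : π (ord φ, oi (-1) φ) = 0 :=
          (QuotientAddGroup.eq_zero_iff _).2 (AddSubgroup.subset_closure ⟨φ, hn, rfl⟩)
        have h4 : (2 * N) • π (dl (z.a i, z.b i), 0) = (-oi (-1) φ) • π (0, 1) := by
          rw [neg_smul, eq_neg_iff_add_eq_zero, ← h3, ← map_nsmul, ← map_zsmul, ← map_add, h2]
          simp
        have d2 := hT.dB0
        exact (IsOfFinAddOrder.of_nsmul (n := 2 * N) (h4 ▸ t0.zsmul) (by omega))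
    have : Finite (π '' W) := hWf
    have hfin : Finite (AddSubgroup.closure (π '' W)) :=
      AddCommGroup.finite_of_fg_isAddTorsion _ fun x =>
        (AddSubgroup.closure (π '' W)).subtype_injective.isOfFinAddOrder_iff.1 (t1 x.2)
    refine Set.Finite.of_finite_fibers (fun D => π (dE e D, 0)) ?_ ?_
    · refine Set.Finite.subset (s := (AddSubgroup.closure (π '' W) : Set _)) (Set.toFinite _) ?_
      rintro _ ⟨D, hD, rfl⟩
      have : Gam (fz e) S ≤ (AddSubgroup.closure (π '' W)).comap π := by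
        refine sup_le (fun x hx => ?_) ((AddSubgroup.closure_le _).2 fun x hx => ?_)
        · rw [AddSubgroup.mem_comap, show π x = 0 from (QuotientAddGroup.eq_zero_iff _).2 hx]
          exact zero_mem _
        · exact AddSubgroup.subset_closure ⟨x, hx, rfl⟩
      exact this hD.2
    · rintro _ ⟨D0, hD0, rfl⟩
      refine (fib_fin e D0).subset ?_
      rintro D ⟨hD, h⟩
      exact ⟨hD.1, uniq hf hD.1 hD0.1 (QuotientAddGroup.eq_iff_sub_mem.1 h)⟩
  · rintro ⟨p, hp⟩ ⟨q, hq⟩ h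
    exact absurd (Subtype.ext ((pt_zero hp).trans (pt_zero hq).symm)) h
  · rintro ⟨p, hp⟩
    obtain rfl := pt_zero hp
    exact IsUnit.mk0 _ (z.b0 i)
  · rintro ⟨p, hp⟩
    obtain rfl := pt_zero hp
    exact hz ▸ z.hb i
  · intro p hp
    fin_cases p
    · exact absurd hp one_ne_zero
    · exact ⟨rfl, rfl⟩
    · exact ⟨rfl, rfl⟩
  · refine AddSubgroup.mem_sup_right (AddSubgroup.subset_closure (Or.inr ⟨_, ⟨i, rfl⟩, ?_⟩))
    simp [dE, Dv.pt, Fin.sum_univ_three]
  · rintro ⟨p, hp⟩; simp [Dv.inf] at hp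
  · rintro ⟨p, hp⟩; simp [Dv.inf] at hp
  · rintro ⟨p, hp⟩; simp [Dv.inf] at hp
  · intro p _; simp [Dv.inf]
  · have : (dE e (Dv.inf k), (0 : ℤ)) = 0 := by simp [dE, Dv.inf]
    rw [this]; exact zero_mem _

end

end Pool.Agent.MP_8d06cc_nt.RED
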