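import Pool.Agent.MP_8d06cc_nt.RED.Gen
import Pool.Agent.MP_8d06cc_nt.RED.Fin

/-! Transfer from the ultrapower and the assembly of block RED. -/

set_option autoImplicit false

namespace Pool.Agent.MP_8d06cc_nt.RED

open Polynomial AB Filter
open MP_216eb3_nt.H66 (Qb Ks gm gm_eq_zero)

/-- evaluation of sequences -/
noncomputable def ej (j : ℕ) : (ℕ → Qb) →+* Qb := Pi.evalRingHom (fun _ => Qb) j

theorem gm_surj : Function.Surjective gm := fun u => Germ.inductionOn u fun a => ⟨a, rfl⟩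

theorem ev_ne {a : ℕ → Qb} : gm a ≠ 0 ↔ ∀ᶠ j in hyperfilter ℕ, a j ≠ 0 :=
  gm_eq_zero.not.trans Ultrafilter.eventually_not.symm

theorem ev_coeff (Q : (ℕ → Qb)[X]) : ∀ᶠ j in hyperfilter ℕ, ∀ i, (Q.map gm).coeff i = 0 →
    (Q.map (ej j)).coeff i = 0 := by
  have : ∀ i ∈ Q.support, ∀ᶠ j in hyperfilter ℕ, gm (Q.coeff i) = 0 → Q.coeff i j = 0 :=
    fun i _ => by
      by_cases h : gm (Q.coeff i) = 0
      · exact (gm_eq_zero.1 h).mono fun j hj _ => hj
      · exact .of_forall fun j hj => absurd hj h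
  refine ((eventually_all_finset _).2 this).mono fun j hj i hi => ?_
  rw [coeff_map] at hi ⊢
  by_cases h : i ∈ Q.support
  · exact hj i h hi
  · rw [notMem_support_iff.1 h, map_zero]

theorem ev_dvd {P Q : (ℕ → Qb)[X]} (h : P.map gm ∣ Q.map gm) :
    ∀ᶠ j in hyperfilter ℕ, P.map (ej j) ∣ Q.map (ej j) := by
  obtain ⟨W, hW⟩ := h
  obtain ⟨W, rfl⟩ := map_surjective gm gm_surj W
  refine (ev_coeff (Q - P * W)).mono fun j hj => ⟨W.map (ej j), ?_⟩
  rw [← Polynomial.map_mul, ← sub_eq_zero, ← Polynomial.map_sub]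
  ext i
  exact hj i (by simp [hW])

theorem ev_van {f A B : (ℕ → Qb)[X]} {a b : ℕ → Qb} {n : ℕ}
    (h : Van (f.map gm) (gm a) (gm b) n (A.map gm) (B.map gm)) : ∀ᶠ j in hyperfilter ℕ,
      Van (f.map (ej j)) (a j) (b j) n (A.map (ej j)) (B.map (ej j)) := by
  obtain ⟨V, h1, h2, h3⟩ := h
  obtain ⟨V, rfl⟩ := map_surjective gm gm_surj V
  have g1 := gm_eq_zero.1 (show gm (V.eval a - b) = 0 by
    rw [map_sub, ← h1, eval_map, eval₂_at_apply, sub_self])
  have g2 := ev_dvd (P := (X - C a) ^ n) (Q := V ^ 2 - f) (by simpa using h2)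
  have g3 := ev_dvd (P := (X - C a) ^ n) (Q := A + B * V) (by simpa using h3)
  filter_upwards [g1, g2, g3] with j k1 k2 k3
  refine ⟨V.map (ej j), ?_, by simpa [ej] using k2, by simpa [ej] using k3⟩
  have : (V.map (ej j)).eval (ej j a) = ej j (V.eval a) := by rw [eval_map, eval₂_at_apply]
  exact this.trans (sub_eq_zero.1 k1)

theorem fz_map {R S : Type} [CommRing R] [CommRing S] (h : R →+* S) (e : Fin 8 → R) :
    (fz e).map h = fz fun i => h (e i) := by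
  simp [fz, Polynomial.map_prod]

theorem red_pts {k : Type} [Field k] {D : Dv k} {e : Fin 8 → k} (hR : D.Red e) {n : Fin 3 → ℕ}
    (h : D.n = n) : Pts e (fun p : Us n => D.x p) fun p : Us n => D.y p := h ▸ hR.pts

theorem pts_up {ι : Type} {e : ℕ → Fin 8 → Qb} {x y : ℕ → ι → Qb}
    (h : ∀ᶠ j in hyperfilter ℕ, Pts (e j) (x j) (y j)) :
    Pts (fun i => gm fun j => e j i) (fun p => gm fun j => x j p) fun p => gm fun j => y j p where
  de i i' hi := by
    rw [← map_sub]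
    exact (ev_ne.2 (h.mono fun j hj => (hj.de i i' hi).ne_zero)).isUnit
  dx p q hp := by
    rw [← map_sub]
    exact (ev_ne.2 (h.mono fun j hj => (hj.dx p q hp).ne_zero)).isUnit
  uy p := (ev_ne.2 (h.mono fun j hj => (hj.uy p).ne_zero)).isUnit
  eqn p := by
    rw [← fz_map gm fun i j => e j i, eval_map, eval₂_at_apply, ← map_pow, ← sub_eq_zero, ← map_sub,
      gm_eq_zero]
    refine h.mono fun j hj => sub_eq_zero.2 ((hj.eqn p).trans ?_)
    simp [fz, eval_prod]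

theorem down (hC : S_CLO) {e : ℕ → Fin 8 → Qb} {S : ℕ → Set (Qb × Qb)} {D : ℕ → Dv Qb}
    {n : Fin 3 → ℕ} {k : ℕ} (h : ∀ᶠ j in hyperfilter ℕ, D j ∈ DD (e j) (S j) ∧ (D j).n = n)
    {φ : R (fz fun i => gm fun j => e j i)} {u v : ℕ → Qb} (h0 : nm φ ≠ 0)
    (h1 : ∀ p : Us n, Van (fz fun i => gm fun j => e j i) (gm fun j => (D j).x p)
      (-gm fun j => (D j).y p) (2 * k * n p) φ.re φ.im)
    (h2 : (nm φ).natDegree ≤ 2 * k * ∑ p, n p + 3)
    (h3 : gm v ^ 2 = (fz fun i => gm fun j => e j i).eval (gm u)) (h4 : gm v ≠ 0)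
    (h5 : ∀ p : Us n, gm u ≠ gm fun j => (D j).x p)
    (h6 : φ.re.eval (gm u) + φ.im.eval (gm u) * gm v = 0) (h7 : φ.im.eval (gm u) ≠ 0) :
    ∀ᶠ j in hyperfilter ℕ, ∃ D' ∈ DD (e j) (S j), ∃ p, D'.x p = u j ∧ D'.y p = v j := by
  obtain ⟨A, B⟩ := φ
  obtain ⟨A, rfl⟩ := map_surjective gm gm_surj A
  obtain ⟨B, rfl⟩ := map_surjective gm gm_surj B
  have m1 := fz_map gm fun i j => e j i
  have m2 : ∀ j, (fz fun i j => e j i).map (ej j) = fz (e j) := fun j => fz_map _ _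
  have vv : ∀ (P : (ℕ → Qb)[X]) j, (P.map (ej j)).eval (u j) = P.eval u j := fun P j => by
    change (P.map (ej j)).eval (ej j u) = ej j (P.eval u)
    rw [eval_map, eval₂_at_apply]
  have vg : ∀ P : (ℕ → Qb)[X], (P.map gm).eval (gm u) = gm (P.eval u) := fun P => by
    rw [eval_map, eval₂_at_apply]
  have eN : nm (⟨A.map gm, B.map gm⟩ : R (fz fun i => gm fun j => e j i)) =
      (A ^ 2 - (fz fun i j => e j i) * B ^ 2).map gm := by simp [nm, m1]
  have eN' : ∀ j, nm (⟨A.map (ej j), B.map (ej j)⟩ : R (fz (e j))) =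
      (A ^ 2 - (fz fun i j => e j i) * B ^ 2).map (ej j) := fun j => by simp [nm, m2]
  rw [eN] at h0 h2
  have g0 := leadingCoeff_ne_zero.2 h0
  rw [leadingCoeff, coeff_map, ev_ne] at g0
  have g1 := fun p : Us n => ev_van (f := fz fun i j => e j i) (A := A) (B := B)
    (a := fun j => (D j).x p) (b := -fun j => (D j).y p) (n := 2 * k * n p)
    (by rw [m1, map_neg]; exact h1 p)
  have g3 := gm_eq_zero.1 (show gm (v ^ 2 - (fz fun i j => e j i).eval u) = 0 by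
    rw [map_sub, map_pow, h3, ← vg, m1, sub_self])
  have g5 := fun p : Us n => ev_ne.1 ((map_sub gm _ _).trans_ne (sub_ne_zero.2 (h5 p)))
  have g6 := gm_eq_zero.1 (show gm (A.eval u + B.eval u * v) = 0 by
    rw [map_add, map_mul, ← vg, ← vg]; exact h6)
  have g7 := ev_ne.1 ((vg B).symm.trans_ne h7)
  filter_upwards [h, g0, eventually_all.2 g1, ev_coeff (A ^ 2 - (fz fun i j => e j i) * B ^ 2), g3,
    ev_ne.1 h4, eventually_all.2 g5, g6, g7] with j ⟨k0, kn⟩ k1 k2 k3 k4 k5 k6 k7 k8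
  refine hC Qb (e j) (S j) (D j) k ⟨A.map (ej j), B.map (ej j)⟩ (u j) (v j) (oct_fz k0.1.pts.de) k0
    ?_ (fun p hp => ?_) ?_ ?_ k5 (fun p hp => sub_ne_zero.1 (k6 ⟨p, kn ▸ hp⟩)) ?_ ?_
  · rw [eN']
    exact fun h => k1 (((coeff_map (ej j) _).symm.trans (congrArg (coeff · _) h)).trans
      (coeff_zero _))
  · rw [kn, ← m2]
    exact k2 ⟨p, kn ▸ hp⟩
  · rw [eN', kn]
    exact natDegree_le_iff_coeff_eq_zero.2 fun i hi =>
      k3 i (coeff_eq_zero_of_natDegree_lt (h2.trans_lt hi))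
  · rw [← m2, vv]
    exact sub_eq_zero.1 k4
  · rw [vv, vv]
    exact k7
  · rwa [vv]

theorem red_of (hC : S_CLO) (hU : IsAlgClosed Ks) : StmtRED := by
  intro m z N T e hT he
  have F := fun j => fin Qb m (z j) (N j) (T j) (e j) (hT j) (he j)
  refine ⟨fun j => DD (e j) (Set.range fun i => ((z j).a i, (z j).b i)), fun j => (F j).1,
    fun j D hD => hD.1, fun j => (F j).2.1, fun j => (F j).2.2, 8000, by norm_num,
    fun D n β μ h k hk => ?_⟩
  have hP := pts_up (x := fun j (p : Us n) => (D j).x p) (y := fun j (p : Us n) => (D j).y p)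
    (h.mono fun j hj => red_pts hj.1.1 hj.2.1)
  obtain ⟨j, ⟨r, -⟩, rn, rb, rm⟩ := h.exists
  have hr := r.deg
  rw [Dv.r, rn, rb, rm] at hr
  have hs : ∑ p : Us n, n p = ∑ p, n p :=
    (Finset.sum_subtype (Finset.univ.filter fun p => n p ≠ 0) (by simp) n).symm.trans
      (Finset.sum_filter_ne_zero _)
  obtain ⟨S, hS⟩ := gen _ _ _ (fun p : Us n => n p) _ β.card μ k hP hs hr hk
  refine ⟨S, fun q => ⟨?_, (hS q).2⟩⟩
  obtain ⟨φ, h0, h1, h2, h6, h7⟩ := (hS q).1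
  obtain ⟨u, hu⟩ := gm_surj (S.x' q)
  obtain ⟨v, hv⟩ := gm_surj (S.y' q)
  refine ⟨u, v, hu, hv, down hC (h.mono fun j hj => ⟨hj.1, hj.2.1⟩) h0 h1 h2 ?_ ?_ (fun p => ?_)
    (by rwa [hu, hv]) (by rwa [hu])⟩
  · rw [hu, hv]
    exact S.pts.eqn (Sum.inr q)
  · rw [hv]
    exact (S.pts.uy (Sum.inr q)).ne_zero
  · rw [hu]
    exact sub_ne_zero.1 (S.pts.dx (Sum.inr q) (Sum.inl p) (by simp)).ne_zero

end Pool.Agent.MP_8d06cc_nt.RED
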