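import Pool.Agent.MP_8d06cc_nt.RED.Defs

/-! The certificate of the primitive part of a square. -/

set_option autoImplicit false

namespace Pool.Agent.MP_8d06cc_nt.RED

open Polynomial AB Finset

namespace CertAux

variable {E : Type} [Field E] {κ : Type} [Fintype κ] {f : E[X]}

theorem sum_mult_le {p : E[X]} {x : κ → E} (hx : Function.Injective x) :
    ∑ i, rootMultiplicity (x i) p ≤ p.natDegree := by
  classical
  rw [← sum_image (s := univ) (f := fun a => rootMultiplicity a p) hx.injOn]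
  refine le_trans ?_ (card_roots' p)
  rw [← Multiset.sum_count_eq_card (s := univ.image x ∪ p.roots.toFinset) (m := p.roots)
    fun a ha => mem_union_right _ (Multiset.mem_toFinset.2 ha)]
  simp only [count_roots]
  exact sum_le_sum_of_subset subset_union_left

theorem eq_prod [IsAlgClosed E] {p : E[X]} {x : κ → E} (hx : Function.Injective x)
    (h : ∀ a ∈ p.roots, a ∈ Set.range x) :
    p = C p.leadingCoeff * ∏ i, (X - C (x i)) ^ rootMultiplicity (x i) p := by
  classical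
  conv_lhs => rw [← C_leadingCoeff_mul_prod_multiset_X_sub_C (IsAlgClosed.card_roots_eq_natDegree
    (p := p)), prod_multiset_root_eq_finset_root]
  rw [← prod_image (s := univ) (f := fun a => (X - C a) ^ rootMultiplicity a p) hx.injOn]
  refine congrArg _ (prod_subset (fun a ha => ?_) fun a _ ha => ?_)
  · obtain ⟨i, rfl⟩ := h a (Multiset.mem_toFinset.1 ha)
    exact mem_image_of_mem x (mem_univ i)
  · rw [← count_roots, Multiset.count_eq_zero.2 fun h' => ha (Multiset.mem_toFinset.2 h'), pow_zero]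

theorem not_both {A B : E[X]} (h : IsCoprime A B) (a : E) : ¬(A.eval a = 0 ∧ B.eval a = 0) :=
  fun ⟨h1, h2⟩ => by
    obtain ⟨u, v, e⟩ := h
    simpa [h1, h2] using congrArg (eval a) e

omit [Fintype κ] in
theorem pts_inj {e : Fin 8 → E} {x y : κ → E} (h : Pts e x y) : Function.Injective x :=
  fun p q hpq => by_contra fun hn => (h.dx p q hn).ne_zero (sub_eq_zero.2 hpq)

theorem mult_br {ψ : R f} (hf : Oct f) (h : nm ψ ≠ 0) (hc : IsCoprime ψ.re ψ.im) {a : E}
    (ha : f.eval a = 0) : rootMultiplicity a (nm ψ) ≤ 1 := by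
  by_contra! hn
  have h1 : (X - C a) ^ 2 ∣ nm ψ := (le_rootMultiplicity_iff h).1 hn
  have h2 : ψ.re.eval a = 0 := by
    simpa [nm, ha] using dvd_iff_isRoot.1 ((dvd_pow_self _ two_ne_zero).trans h1)
  have h3 : (X - C a) ^ 2 ∣ f * ψ.im ^ 2 := by
    simpa [nm] using (pow_dvd_pow_of_dvd (dvd_iff_isRoot.2 h2) 2).sub h1
  have h4 : IsCoprime (X - C a) ψ.im := (irreducible_X_sub_C a).coprime_iff_not_dvd.2
    fun h' => not_both hc a ⟨h2, dvd_iff_isRoot.1 h'⟩
  exact not_isUnit_X_sub_C a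
    (hf.sep.squarefree _ (sq (X - C a) ▸ (h4.pow (m := 2) (n := 2)).dvd_of_dvd_mul_right h3))

variable [CharZero E]

theorem one_zero {ψ : R f} (h : nm ψ ≠ 0) (hc : IsCoprime ψ.re ψ.im) {P : E × E} (hP : On f P)
    (h0 : P.2 ≠ 0) : ord ψ P = 0 ∨ ord ψ (io P) = 0 := by
  by_contra! hn
  have h1 := (ord_pos h hP).1 ((ord_nonneg h P).lt_of_ne' hn.1)
  have h2 := (ord_pos h (on_io.2 hP)).1 ((ord_nonneg h _).lt_of_ne' hn.2)
  simp only [io] at h2
  refine not_both hc P.1 ⟨by linear_combination (h1 + h2) / 2, (mul_eq_zero.1 ?_).resolve_right h0⟩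
  linear_combination (h1 - h2) / 2

theorem cert_of [IsAlgClosed E] {e : Fin 8 → E} {ψ : R (fz e)} (hf : Oct (fz e)) (h : nm ψ ≠ 0)
    (hc : IsCoprime ψ.re ψ.im) {x y : κ → E} (hP : Pts e x y)
    (hr : ∀ a ∈ (nm ψ).roots, a ∈ Set.range x) {n : κ → ℤ} {ν : ℤ}
    (hn : ∀ p, n p = ord ψ (x p, y p) - ord ψ (io (x p, y p))) (hν : ν = oi (-1) ψ - oi 1 ψ) :
    Cert e x y n ν := by
  have on : ∀ p, On (fz e) (x p, y p) := hP.eqn
  have y0 : ∀ p, (x p, y p).2 ≠ 0 := fun p => (hP.uy p).ne_zero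
  have ab : ∀ p, (n p).natAbs = rootMultiplicity (x p) (nm ψ) := fun p => by
    have h1 := ord_add h (on p) (y0 p)
    have h2 := one_zero h hc (on p) (y0 p)
    have h3 := hn p
    simp only at h1
    omega
  have e1 := eq_prod (pts_inj hP) hr
  have e2 : ∑ p, (n p).natAbs = (nm ψ).natDegree := by
    conv_rhs => rw [e1]
    rw [natDegree_C_mul (leadingCoeff_ne_zero.2 h),
      natDegree_prod_of_monic _ _ fun p _ => (monic_X_sub_C _).pow _]
    simp [ab]
  have s1 : (1 : E) ^ 2 = 1 := one_pow 2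
  have s2 : (-1 : E) ^ 2 = 1 := by simp
  have e3 := oi_add hf s1 h
  obtain ⟨M, hM⟩ : ∃ M : ℕ, (M : ℤ) = max (-oi 1 ψ) (-oi (-1) ψ) :=
    ⟨_, Int.toNat_of_nonneg (by omega)⟩
  obtain ⟨d1, d2⟩ := deg_of_oi (M := M) hf h (by omega) (by omega)
  have dA : ψ.re.natDegree ≤ M := by
    by_cases h0 : ψ.re = 0
    · simp [h0]
    · exact_mod_cast d1 h0
  refine ⟨ψ.re, ψ.im, M, _, hc, (leadingCoeff_ne_zero.2 h).isUnit, ?_,
    degree_le_of_natDegree_le dA, ?_, fun p hp => ?_, fun p hp => ?_, ?_⟩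
  · simp only [ab]
    exact e1
  · by_cases h0 : ψ.im = 0
    · rw [h0, degree_zero]
      exact WithBot.bot_lt_coe _
    · have := d2 h0
      exact (natDegree_lt_iff_degree_lt h0).1 (by omega)
  · have := ord_nonneg h (io (x p, y p))
    exact (ord_pos h (on p)).1 (by have := hn p; omega)
  · have := ord_nonneg h (x p, y p)
    have h1 := (ord_pos h (on_io.2 (on p))).1 (by have := hn p; omega)
    simp only [io] at h1
    linear_combination h1
  by_cases h0 : ν = 0
  · exact Or.inl ⟨h0, by omega⟩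
  have i0 : ψ.im ≠ 0 := fun h1 => by
    have e : ψ = pc _ ψ.re := QuadraticAlgebra.ext rfl h1
    have r0 : ψ.re ≠ 0 := fun h2 => h (by simp [nm, h1, h2])
    rw [e, oi_pc r0, oi_pc r0] at hν
    omega
  have dB : ψ.im.natDegree + 4 ≤ M := by exact_mod_cast d2 i0
  have t1 := (oi_top hf s1 h dA dB).2
  have t2 := (oi_top hf s2 h dA dB).2
  have e4 : ∑ p, |n p| = (nm ψ).natDegree := by
    rw [← e2]
    simp
  rcases lt_or_gt_of_ne h0 with h1 | h1
  · have a1 := t1.1 (by omega)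
    have a2 := t2.not.1 (by omega)
    refine Or.inr ⟨by omega, Ne.isUnit fun b0 => a2 ?_, -1, Or.inr rfl, ?_, by omega⟩
    · linear_combination a1 - 2 * b0
    · push_cast
      linear_combination a1
  · have a1 := t2.1 (by omega)
    have a2 := t1.not.1 (by omega)
    refine Or.inr ⟨by omega, Ne.isUnit fun b0 => a2 ?_, 1, Or.inl rfl, ?_, by omega⟩
    · linear_combination a1 + 2 * b0
    · push_cast
      linear_combination a1

/-- The primitive part of the square. -/
theorem prim {φ : R f} (hf : Oct f) (h : nm φ ≠ 0) : ∃ ψ : R f, nm ψ ≠ 0 ∧ IsCoprime ψ.re ψ.im ∧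
    (∀ P, ord ψ P - ord ψ (io P) = 2 * (ord φ P - ord φ (io P))) ∧
    oi (-1) ψ - oi 1 ψ = 2 * (oi (-1) φ - oi 1 φ) ∧
    ∀ a, f.eval a = 0 → rootMultiplicity a (nm ψ) = 0 := by
  classical
  obtain ⟨A, B, h1, h2, h3⟩ := extract_gcd (φ * φ).re (φ * φ).im
  generalize gcd (φ * φ).re (φ * φ).im = g at h1 h2
  have e : φ * φ = pc f g * ⟨A, B⟩ := by
    rw [pc_mul]
    exact QuadraticAlgebra.ext h1 h2
  have n1 := nm_ne_mul h h
  rw [e, nm_mul] at n1
  have n2 := left_ne_zero_of_mul n1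
  have n3 := right_ne_zero_of_mul n1
  have g0 : g ≠ 0 := fun h0 => n2 (by simp [nm_pc, h0])
  have o1 : ∀ P, ord φ P + ord φ P = ord (pc f g) P + ord (⟨A, B⟩ : R f) P := fun P => by
    rw [← ord_mul h h, e, ord_mul n2 n3]
  have o2 : ∀ σ : E, σ ^ 2 = 1 → oi σ φ + oi σ φ = -g.natDegree + oi σ (⟨A, B⟩ : R f) :=
    fun σ hσ => by rw [← oi_mul hf hσ h h, e, oi_mul hf hσ n2 n3, oi_pc g0]
  have hc : IsCoprime A B := (gcd_isUnit_iff A B).1 h3
  refine ⟨⟨A, B⟩, n3, hc, fun P => ?_, ?_, fun a ha => ?_⟩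
  · have a1 := o1 P
    have a2 := o1 (io P)
    rw [ord_pc_io] at a2
    omega
  · have a1 := o2 1 (one_pow 2)
    have a2 := o2 (-1) (by simp)
    omega
  · have hP : On f (a, 0) := by simp [On, ha]
    have a1 := o1 (a, 0)
    have a2 := mult_br (ψ := ⟨A, B⟩) hf n3 hc ha
    rw [ord_pc_br g0 hP rfl, ord_br (⟨A, B⟩ : R f) hP rfl] at a1
    simp only at a1
    omega

end CertAux

open CertAux in
theorem cert : S_CERT := by
  intro E ι _ _ _ _ e x y n ν N φ a b hf hP h hn ha hb hab hν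
  classical
  obtain ⟨ψ, n1, hc, o1, o2, br⟩ := prim hf h
  have ex : ∀ u ∈ (nm ψ).roots, ∃ v, On (fz e) (u, v) ∧ v ≠ 0 ∧ 0 < ord ψ (u, v) := fun u hu => by
    have r := (rootMultiplicity_pos n1).2 (isRoot_of_mem_roots hu)
    obtain ⟨v, hv⟩ := IsAlgClosed.exists_pow_nat_eq ((fz e).eval u) two_pos
    have v0 : v ≠ 0 := fun h0 => r.ne' (br u (by simp [← hv, h0]))
    have a1 := ord_add (P := (u, v)) n1 hv v0
    by_cases h1 : 0 < ord ψ (u, v)
    · exact ⟨v, hv, v0, h1⟩
    · exact ⟨-v, on_io.2 (show On _ (u, v) from hv), neg_ne_zero.2 v0, by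
        simp only [io] at a1
        omega⟩
  choose! v v1 v2 v3 using ex
  set T := (nm ψ).roots.toFinset.filter fun u => u ∉ Set.range x with hT
  let x' : Fin T.card → E := fun q => T.equivFin.symm q
  have xT : ∀ q, x' q ∈ (nm ψ).roots ∧ x' q ∉ Set.range x := fun q => by
    simpa only [hT, mem_filter, Multiset.mem_toFinset] using (T.equivFin.symm q).2
  have inj : Function.Injective (Sum.elim x x') := (pts_inj hP).sumElim
    (Subtype.val_injective.comp T.equivFin.symm.injective) fun p q e => (xT q).2 ⟨p, e⟩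
  have P' : Pts e (Sum.elim x x') (Sum.elim y fun q => v (x' q)) :=
    ⟨hP.de, fun p q hpq => (sub_ne_zero.2 (inj.ne hpq)).isUnit,
      fun p => p.rec hP.uy fun q => (v2 _ (xT q).1).isUnit,
      fun p => p.rec hP.eqn fun q => v1 _ (xT q).1⟩
  have lt : ∀ q, ord φ (io (x' q, v (x' q))) < ord φ (x' q, v (x' q)) := fun q => by
    have a1 := o1 (x' q, v (x' q))
    have a2 := one_zero n1 hc (v1 _ (xT q).1) (v2 _ (xT q).1)
    have a3 := v3 _ (xT q).1
    omega
  have ad : ∀ p, ord φ (Sum.elim x x' p, Sum.elim y (fun q => v (x' q)) p) +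
      ord φ (io (Sum.elim x x' p, Sum.elim y (fun q => v (x' q)) p)) =
      rootMultiplicity (Sum.elim x x' p) (nm φ) := fun p =>
    ord_add (P := (_, _)) h (P'.eqn p) (P'.uy p).ne_zero
  have c1 : ∑ p, (rootMultiplicity (x p) (nm φ) - N * n p : ℤ) +
      ∑ q, (rootMultiplicity (x' q) (nm φ) : ℤ) + (oi 1 φ + a) + (oi (-1) φ + b) ≤ 3 := by
    have a1 : ((∑ p, rootMultiplicity (Sum.elim x x' p) (nm φ) : ℕ) : ℤ) ≤ (nm φ).natDegree :=
      Int.ofNat_le.2 (sum_mult_le inj)
    have a2 := oi_add hf (one_pow 2) h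
    simp only [Fintype.sum_sum_type, Sum.elim_inl, Sum.elim_inr] at a1
    push_cast at a1
    rw [sum_sub_distrib, ← mul_sum]
    omega
  have r0 : ∀ p, (0 : ℤ) ≤ rootMultiplicity (x p) (nm φ) - N * n p := fun p => by
    have a1 := ad (.inl p)
    have a2 := hn p
    have a3 := ord_nonneg h (x p, y p)
    simp only [Sum.elim_inl, io] at a1
    push_cast at a2
    omega
  have r1 : ∀ q, (1 : ℤ) ≤ rootMultiplicity (x' q) (nm φ) := fun q => by
    have a1 := ad (.inr q)
    have a2 := lt q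
    have a3 := ord_nonneg h (io (x' q, v (x' q)))
    simp only [Sum.elim_inr] at a1
    omega
  have s0 := sum_nonneg fun p (_ : p ∈ univ) => r0 p
  have s1 := sum_le_sum fun q (_ : q ∈ univ) => r1 q
  simp only [sum_const, card_univ, Fintype.card_fin, nsmul_eq_mul, mul_one] at s1
  refine ⟨⟨T.card, x', fun q => v (x' q),
    fun q => 2 * (ord φ (x' q, v (x' q)) - ord φ (io (x' q, v (x' q)))),
    fun p => 2 * (ord φ (x p, y p) - ord φ (io (x p, y p)) + N * n p),
    2 * (oi (-1) φ - oi 1 φ + N * ν), by omega, fun q => ?_, fun p => ?_, ?_, P',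
    cert_of hf n1 hc P' (fun u hu => ?_) (fun p => ?_) ?_⟩, lt⟩
  · have a1 := ad (.inr q)
    have a2 := single_le_sum (fun q (_ : q ∈ univ) => zero_le_one.trans (r1 q)) (mem_univ q)
    have a3 := ord_nonneg h (io (x' q, v (x' q)))
    have a4 := lt q
    simp only [Sum.elim_inr] at a1
    rw [abs_le]
    omega
  · have a1 := ad (.inl p)
    have a2 := single_le_sum (fun p (_ : p ∈ univ) => r0 p) (mem_univ p)
    have a3 := ord_nonneg h (x p, y p)
    have a4 := hn p
    simp only [Sum.elim_inl, io] at a1 ⊢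
    push_cast at a4
    rw [abs_le]
    omega
  · rw [abs_le]
    omega
  · by_cases h1 : u ∈ Set.range x
    · exact h1.elim fun p hp => ⟨.inl p, hp⟩
    · exact ⟨.inr (T.equivFin ⟨u, mem_filter.2 ⟨Multiset.mem_toFinset.2 hu, h1⟩⟩), by simp [x']⟩
  · rw [o1]
    rcases p with p | q
    · simp only [Sum.elim_inl]
      push_cast
      ring
    · rfl
  · rw [o2]
    push_cast
    ring

end Pool.Agent.MP_8d06cc_nt.RED
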