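import Pool.Agent.MP_8d06cc_nt.AB.Defs

/-! Degrees of solutions of linear systems and of quotients of polynomials. -/

namespace Pool.Agent.MP_8d06cc_nt.RED

open AB Polynomial

variable {E : Type} [Field E] [CharZero E] {G : Set E}

theorem fil_one (D : ℕ) : (1 : E) ∈ Fil G D := by
  simpa [Fil] using Submodule.pow_mem_pow (Submodule.span ℚ (insert 1 G))
    (Submodule.subset_span (Set.mem_insert 1 G)) D

theorem fil_mul {a b : E} {D D' : ℕ} (ha : a ∈ Fil G D) (hb : b ∈ Fil G D') :
    a * b ∈ Fil G (D + D') := by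
  rw [Fil, pow_add]
  exact Submodule.mul_mem_mul ha hb

theorem fil_mono {D D' : ℕ} (h : D ≤ D') : Fil G D ≤ Fil G D' := fun a ha => by
  obtain ⟨k, rfl⟩ := Nat.exists_eq_add_of_le h
  simpa using fil_mul ha (fil_one k)

theorem fil_gen {a : E} (h : a ∈ G) : a ∈ Fil G 1 := by
  rw [Fil, pow_one]
  exact Submodule.subset_span (Set.mem_insert_of_mem 1 h)

theorem fil_pow {a : E} {D : ℕ} (n : ℕ) (h : a ∈ Fil G D) : a ^ n ∈ Fil G (n * D) := by
  induction n with
  | zero => simpa using fil_one 0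
  | succ n ih =>
    rw [pow_succ, Nat.succ_mul]
    exact fil_mul ih h

theorem fil_prod {ι : Type} (s : Finset ι) {a : ι → E} {d : ℕ} (h : ∀ i ∈ s, a i ∈ Fil G d) :
    ∏ i ∈ s, a i ∈ Fil G (s.card * d) := by
  classical
  induction s using Finset.induction_on with
  | empty => simpa using fil_one 0
  | insert i s hi ih =>
    rw [Finset.prod_insert hi, Finset.card_insert_of_notMem hi, Nat.succ_mul, add_comm]
    exact fil_mul (h i (Finset.mem_insert_self i s))
      (ih fun j hj => h j (Finset.mem_insert_of_mem hj))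

theorem fil_det {κ : Type} [Fintype κ] [DecidableEq κ] {M : Matrix κ κ E} {d : ℕ}
    (h : ∀ i j, M i j ∈ Fil G d) : M.det ∈ Fil G (Fintype.card κ * d) := by
  rw [Matrix.det_apply]
  exact sum_mem fun σ _ => zsmul_mem (fil_prod Finset.univ fun i _ => h _ _) _

theorem fil_single {κ : Type} [DecidableEq κ] (i j : κ) (d : ℕ) :
    (Pi.single i (1 : E) : κ → E) j ∈ Fil G d := by
  rw [Pi.single_apply]
  split_ifs
  · exact fil_one d
  · exact zero_mem _

theorem cramer {ι κ : Type} [Fintype ι] [Fintype κ] (a : ι → κ → E) (d : ℕ)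
    (h : ∀ i j, a i j ∈ Fil G d) (hc : Fintype.card ι < Fintype.card κ) :
    ∃ v : κ → E, v ≠ 0 ∧ (∀ j, v j ∈ Fil G (Fintype.card κ * d)) ∧
      ∀ i, ∑ j, a i j * v j = 0 := by
  classical
  obtain ⟨s, s1, s2, s3⟩ := exists_linearIndependent E (Set.range a)
  obtain ⟨b, b1, b2, b3, b4⟩ := exists_linearIndepOn_id_extension (K := E) (s := s)
    (t := s ∪ Set.range (Pi.basisFun E κ)) s3 Set.subset_union_left
  have ht : ⊤ ≤ Submodule.span E b := by
    rw [← (Pi.basisFun E κ).span_eq, Submodule.span_le]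
    exact Set.subset_union_right.trans b3
  let B : Module.Basis b E (κ → E) := Module.Basis.mk b4 (by simpa using ht)
  let e : κ ≃ b := (Pi.basisFun E κ).indexEquiv B
  let M : Matrix κ κ E := Matrix.of fun i => (e i : κ → E)
  have hM : M.det ≠ 0 := by
    have : LinearIndependent E M.row := b4.comp e e.injective
    exact ((Matrix.isUnit_iff_isUnit_det M).1
      (Matrix.linearIndependent_rows_iff_isUnit.1 this)).ne_zero
  obtain ⟨x, hx, hs⟩ : ∃ x ∈ b, x ∉ s := by
    by_contra! hn
    have h1 := (Submodule.finrank_mono (ht.trans ((Submodule.span_mono hn).trans s2.le))).trans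
      (finrank_range_le_card (R := E) a)
    rw [finrank_top, Module.finrank_fintype_fun_eq_card] at h1
    omega
  have hv := M.mulVec_cramer (Pi.single (e.symm ⟨x, hx⟩) 1)
  refine ⟨M.cramer (Pi.single (e.symm ⟨x, hx⟩) 1), fun h0 => hM ?_, fun j => ?_, fun i => ?_⟩
  · simpa [h0, eq_comm] using congrFun hv (e.symm ⟨x, hx⟩)
  · rw [Matrix.cramer_apply]
    refine fil_det fun k l => ?_
    rw [Matrix.updateCol_apply]
    split_ifs
    · exact fil_single _ _ d
    change (e k : κ → E) l ∈ _
    rcases b1 (e k).2 with hk | ⟨k', hk⟩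
    · obtain ⟨i, hi⟩ := s1 hk
      exact (congrFun hi l) ▸ h i l
    · rw [Pi.basisFun_apply] at hk
      exact (congrFun hk l) ▸ fil_single k' l d
  · have hi : a i ∈ Submodule.span E s := s2 ▸ Submodule.subset_span ⟨i, rfl⟩
    change a i ⬝ᵥ _ = 0
    generalize a i = y at hi
    induction hi using Submodule.span_induction with
    | mem y hy =>
      have h1 := congrFun hv (e.symm ⟨y, b2 hy⟩)
      have h2 : e.symm ⟨y, b2 hy⟩ ≠ e.symm ⟨x, hx⟩ := fun h3 =>
        hs ((Subtype.mk.inj (e.symm.injective h3)) ▸ hy)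
      rw [Pi.smul_apply, Pi.single_eq_of_ne h2, smul_zero] at h1
      have h3 : M (e.symm ⟨y, b2 hy⟩) = y := congrArg Subtype.val (e.apply_symm_apply _)
      rw [← h3]
      exact h1
    | zero => exact zero_dotProduct _
    | add y z _ _ hy hz => rw [add_dotProduct, hy, hz, add_zero]
    | smul c y _ hy => rw [smul_dotProduct, hy, smul_zero]

theorem fil_pmul {P Q : E[X]} {a b : ℕ} (hP : ∀ i, P.coeff i ∈ Fil G a)
    (hQ : ∀ i, Q.coeff i ∈ Fil G b) (i : ℕ) : (P * Q).coeff i ∈ Fil G (a + b) := by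
  rw [coeff_mul]
  exact sum_mem fun _ _ => fil_mul (hP _) (hQ _)

theorem fil_div {P U : E[X]} {a D g : ℕ} (hP : P.Monic) (h1 : ∀ i, P.coeff i ∈ Fil G a)
    (h2 : ∀ i, (U * P).coeff i ∈ Fil G D) (h3 : U.natDegree ≤ g) (i : ℕ) :
    U.coeff i ∈ Fil G (D + g * a) := by
  have key : ∀ k, (∀ i l, g < i + k → U.coeff i * P.coeff l ∈ Fil G (D + k * a)) →
      ∀ i, g ≤ i + k → U.coeff i ∈ Fil G (D + k * a) := fun k hk i hi => by
    have h4 := fil_mono (Nat.le_add_right D (k * a)) (h2 (i + P.natDegree))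
    rw [coeff_mul, ← Finset.add_sum_erase _ _
      (Finset.HasAntidiagonal.mem_antidiagonal.2 rfl : (i, P.natDegree) ∈ _),
      hP.coeff_natDegree, mul_one] at h4
    refine (add_mem_cancel_right (sum_mem fun x hx => ?_)).1 h4
    obtain ⟨x1, x2⟩ := Finset.mem_erase.1 hx
    rw [Finset.HasAntidiagonal.mem_antidiagonal] at x2
    rcases lt_trichotomy x.2 P.natDegree with h | h | h
    · exact hk _ _ (by omega)
    · exact absurd (Prod.ext (by omega) h) x1
    · rw [coeff_eq_zero_of_natDegree_lt h, mul_zero]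
      exact zero_mem _
  have : ∀ k i l, g < i + k → U.coeff i * P.coeff l ∈ Fil G (D + k * a) := fun k => by
    induction k with
    | zero =>
      intro i l h
      rw [coeff_eq_zero_of_natDegree_lt (show U.natDegree < i by omega), zero_mul (P.coeff l)]
      exact zero_mem _
    | succ k ih =>
      intro i l h
      rw [Nat.succ_mul, ← add_assoc]
      exact fil_mul (key k ih i (by omega)) (h1 l)
  exact key g (this g) i (Nat.le_add_left g i)

end Pool.Agent.MP_8d06cc_nt.RED
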