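import Pool.Agent.MP_8d06cc_nt.RED.Ord
import Pool.Agent.MP_8d06cc_nt.AB.Defs

/-! Divisor classes and the statements inside block RED. -/

set_option autoImplicit false

namespace Pool.Agent.MP_8d06cc_nt.RED

open Polynomial AB

noncomputable section

variable {k : Type} [Field k]

open Classical in
/-- one point as a divisor -/
def dl (P : k × k) : k × k → ℤ := Pi.single P 1

/-- Principal divisors. A divisor of degree zero is given by its finite part and its coefficient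
at the second point at infinity. -/
def Prin (f : k[X]) : AddSubgroup ((k × k → ℤ) × ℤ) :=
  AddSubgroup.closure {g | ∃ φ : R f, nm φ ≠ 0 ∧ g = (ord φ, oi (-1) φ)}

/-- the group generated by the principal divisors, infinity and the points of `S` -/
def Gam (f : k[X]) (S : Set (k × k)) : AddSubgroup ((k × k → ℤ) × ℤ) :=
  Prin f ⊔ AddSubgroup.closure (insert (0, 1) ((fun P => (dl P, 0)) '' S))

/-- the finite part of a divisor -/
def dE (e : Fin 8 → k) (D : Dv k) : k × k → ℤ :=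
  ∑ p, (D.n p : ℤ) • dl (D.x p, D.y p) + ∑ i ∈ D.β, dl (e i, 0)

/-- reduced divisors with class in `Gam` -/
def DD (e : Fin 8 → k) (S : Set (k × k)) : Set (Dv k) :=
  {D | D.Red e ∧ (dE e D, 0) ∈ Gam (fz e) S}

/-- finiteness -/
def S_FIN : Prop := ∀ (k : Type) [Field k] [CharZero k] [IsAlgClosed k] (m : ℕ) (z : NF k m)
  (N : ℕ) (T : TD k m) (e : Fin 8 → k), z.Tor N T → z.f = fz e →
  (DD e (Set.range fun i => (z.a i, z.b i))).Finite ∧
    (∀ i, Dv.pt (z.a i) (z.b i) ∈ DD e (Set.range fun i => (z.a i, z.b i))) ∧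
    Dv.inf k ∈ DD e (Set.range fun i => (z.a i, z.b i))

/-- closure under the multiplication step -/
def S_CLO : Prop := ∀ (k : Type) [Field k] [CharZero k] [IsAlgClosed k] (e : Fin 8 → k)
  (S : Set (k × k)) (D : Dv k) (N : ℕ) (φ : R (fz e)) (u v : k), Oct (fz e) → D ∈ DD e S →
  nm φ ≠ 0 → (∀ p, D.n p ≠ 0 → Van (fz e) (D.x p) (-D.y p) (2 * N * D.n p) φ.re φ.im) →
  (nm φ).natDegree ≤ 2 * N * ∑ p, D.n p + 3 → v ^ 2 = (fz e).eval u → v ≠ 0 →
  (∀ p, D.n p ≠ 0 → u ≠ D.x p) → φ.re.eval u + φ.im.eval u * v = 0 → φ.im.eval u ≠ 0 →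
  ∃ D' ∈ DD e S, ∃ p, D'.x p = u ∧ D'.y p = v

/-- a solution of the linear system with coefficients of controlled degree -/
def S_SOL : Prop := ∀ (E ι : Type) [Field E] [CharZero E] [Fintype ι] (G : Set E) (f : E[X])
  (x y : ι → E) (n : ι → ℕ) (M a b : ℕ), Oct f → (∀ i, f.coeff i ∈ Fil G 1) →
  (∀ p, x p ∈ Fil G 1 ∧ y p ∈ Fil G 1 ∧ (y p)⁻¹ ∈ Fil G 1) →
  (∀ p, y p ≠ 0 ∧ y p ^ 2 = f.eval (x p)) → 4 ≤ M → ∑ p, n p + a + b + 3 ≤ 2 * M →
  ∃ A B : E[X], ¬ (A = 0 ∧ B = 0) ∧ A.natDegree ≤ M ∧ B.natDegree + 4 ≤ M ∧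
    (∀ p, Van f (x p) (y p) (n p) A B) ∧
    Van (reflect 8 f) 0 1 a (reflect M A) (reflect (M - 4) B) ∧
    Van (reflect 8 f) 0 (-1) b (reflect M A) (reflect (M - 4) B) ∧
    (∀ i, A.coeff i ∈ Fil G (100 * M ^ 2)) ∧ ∀ i, B.coeff i ∈ Fil G (100 * M ^ 2)

/-- the certificate of the primitive part of the square -/
def S_CERT : Prop := ∀ (E ι : Type) [Field E] [CharZero E] [IsAlgClosed E] [Fintype ι]
  (e : Fin 8 → E) (x y : ι → E) (n : ι → ℕ) (ν : ℤ) (N : ℕ) (φ : R (fz e)) (a b : ℤ),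
  Oct (fz e) → Pts e x y → nm φ ≠ 0 → (∀ p, ((N * n p : ℕ) : ℤ) ≤ ord φ (x p, -y p)) →
  -a ≤ oi 1 φ → -b ≤ oi (-1) φ → a + b = N * ∑ p, (n p : ℤ) + 3 → a - b = 3 - N * ν →
  ∃ S : Step e x y (fun p => (n p : ℤ)) ν (2 * N),
    ∀ q, ord φ (S.x' q, -S.y' q) < ord φ (S.x' q, S.y' q)

end

end Pool.Agent.MP_8d06cc_nt.RED
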