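import Pool.Agent.MP_8d06cc_nt.RED.Sol
import Pool.Agent.MP_8d06cc_nt.RED.Cert
import Pool.Agent.MP_8d06cc_nt.AB.Spec

/-! The multiplication step over an algebraically closed field, with degrees. -/

set_option autoImplicit false

namespace Pool.Agent.MP_8d06cc_nt.RED

open Polynomial AB

variable {E : Type} [Field E] {f : E[X]}

theorem oct_fz {e : Fin 8 → E} (h : ∀ i j, i ≠ j → IsUnit (e i - e j)) : Oct (fz e) where
  mon := monic_prod_of_monic _ _ fun i _ => monic_X_sub_C _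
  deg := by rw [fz, natDegree_finsetProd_X_sub_C_eq_card]; simp
  sep := separable_prod_X_sub_C_iff.2 fun i j hij =>
    by_contra fun hn => (h i j hn).ne_zero (sub_eq_zero.2 hij)

theorem nm_ne (hf : Oct f) {φ : R f} (h : ¬ (φ.re = 0 ∧ φ.im = 0)) : nm φ ≠ 0 := fun h0 => by
  have e : φ.re ^ 2 = φ.im ^ 2 * f := by rw [nm] at h0; linear_combination h0
  by_cases hB : φ.im = 0
  · exact h ⟨by simpa [hB] using e, hB⟩
  obtain ⟨Q, hQ⟩ := (IsIntegrallyClosed.pow_dvd_pow_iff two_ne_zero).1 ⟨f, e⟩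
  have e2 : f = Q * Q := mul_left_cancel₀ (pow_ne_zero 2 hB) (by rw [← e, hQ]; ring)
  have := natDegree_eq_zero_of_isUnit (hf.sep.squarefree Q e2.symm.dvd)
  have h8 := hf.deg
  have := natDegree_mul_le (p := Q) (q := Q)
  rw [← e2] at this
  omega

theorem strip (u : E) (d : ℕ) : ∀ φ : R f, nm φ ≠ 0 → (nm φ).natDegree ≤ d → ∃ (t : ℕ) (ψ : R f),
    φ = pc f ((X - C u) ^ t) * ψ ∧ ¬ (ψ.re.eval u = 0 ∧ ψ.im.eval u = 0) := by
  induction d using Nat.strong_induction_on with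
  | _ d ih =>
    intro φ h hd
    by_cases h0 : φ.re.eval u = 0 ∧ φ.im.eval u = 0
    · obtain ⟨A, hA⟩ := dvd_iff_isRoot.2 h0.1
      obtain ⟨B, hB⟩ := dvd_iff_isRoot.2 h0.2
      have e : φ = pc f (X - C u) * ⟨A, B⟩ := by
        rw [pc_mul]
        exact QuadraticAlgebra.ext hA hB
      have e2 : nm φ = (X - C u) ^ 2 * nm (⟨A, B⟩ : R f) := by rw [e, nm_mul, nm_pc]
      have n := right_ne_zero_of_mul (e2 ▸ h)
      rw [e2, natDegree_mul (pow_ne_zero _ (X_sub_C_ne_zero u)) n, natDegree_pow,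
        natDegree_X_sub_C] at hd
      obtain ⟨t, ψ, e3, h3⟩ := ih (d - 1) (by omega) _ n (by omega)
      refine ⟨t + 1, ψ, ?_, h3⟩
      rw [e, e3]
      simp only [pc_mul, pow_succ']
      rw [mul_assoc, mul_assoc]
    · exact ⟨0, φ, by simp [pc_mul], h0⟩

theorem Van.dvd {a b : E} {n : ℕ} {φ : R f} (h : Van f a b n φ.re φ.im) :
    (X - C a) ^ n ∣ nm φ := by
  obtain ⟨V, -, h2, h3⟩ := h
  have : nm φ = (φ.re + φ.im * V) * (φ.re - φ.im * V) + (V ^ 2 - f) * φ.im ^ 2 := by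
    rw [nm]; ring
  exact this ▸ (h3.mul_right _).add (h2.mul_right _)

variable [CharZero E]

theorem fil_pprod {ι : Type} {G : Set E} (s : Finset ι) {P : ι → E[X]} {d : ι → ℕ}
    (h : ∀ p i, (P p).coeff i ∈ Fil G (d p)) (i : ℕ) :
    (∏ p ∈ s, P p).coeff i ∈ Fil G (∑ p ∈ s, d p) := by
  classical
  induction s using Finset.induction_on generalizing i with
  | empty => simpa using Solx.fil_Xp 0 i
  | insert a s ha ih =>
    rw [Finset.prod_insert ha, Finset.sum_insert ha]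
    exact fil_pmul (h a) ih i

theorem at_pt {φ : R f} {u v : E} (h : nm φ ≠ 0) (hP : v ^ 2 = f.eval u)
    (ho : ord φ (u, -v) < ord φ (u, v)) : ∃ ψ : R f, nm ψ ≠ 0 ∧
      (∀ a b n, u ≠ a → Van f a b n φ.re φ.im → Van f a b n ψ.re ψ.im) ∧
      (nm ψ).natDegree ≤ (nm φ).natDegree ∧ ψ.re.eval u + ψ.im.eval u * v = 0 ∧
      ψ.im.eval u ≠ 0 := by
  obtain ⟨t, ψ, e, h0⟩ := strip u _ φ h le_rfl
  have g : (X - C u) ^ t ≠ 0 := pow_ne_zero _ (X_sub_C_ne_zero u)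
  have e2 : nm φ = nm (pc f ((X - C u) ^ t)) * nm ψ := by rw [e, nm_mul]
  have n := right_ne_zero_of_mul (e2 ▸ h)
  have o := ord_pc_io (f := f) ((X - C u) ^ t) (u, v)
  rw [e, ord_mul (nm_ne_pc g) n, ord_mul (nm_ne_pc g) n] at ho
  have o2 := ord_nonneg n (u, -v)
  have z := (ord_pos (P := (u, v)) n hP).1 (by simp only [io] at o; omega)
  refine ⟨ψ, n, ?_, natDegree_le_of_dvd (Dvd.intro_left _ e2.symm) h, z,
    fun hB => h0 ⟨by simpa [hB] using z, hB⟩⟩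
  rintro a b m hu ⟨V, h1, h2, h3⟩
  refine ⟨V, h1, h2, IsCoprime.dvd_of_dvd_mul_left (IsCoprime.pow (n := t)
    (isCoprime_X_sub_C_of_isUnit_sub (sub_ne_zero.2 hu.symm).isUnit)) ?_⟩
  rw [e, pc_mul] at h3
  rwa [mul_add, ← mul_assoc]

theorem gen {ι : Type} [IsAlgClosed E] [Fintype ι] (e : Fin 8 → E) (x y : ι → E) (n : ι → ℕ)
    (s b μ k : ℕ) (hP : Pts e x y) (hs : ∑ p, n p = s) (hr : s + b + μ ≤ 3) (hk : 0 < k) :
    ∃ S : Step e x y (fun p => (n p : ℤ)) ((s + b + 2 * μ : ℕ) : ℤ) (4 * k), ∀ q,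
      (∃ φ : R (fz e), nm φ ≠ 0 ∧ (∀ p, Van (fz e) (x p) (-y p) (2 * k * n p) φ.re φ.im) ∧
        (nm φ).natDegree ≤ 2 * k * s + 3 ∧
        φ.re.eval (S.x' q) + φ.im.eval (S.x' q) * S.y' q = 0 ∧ φ.im.eval (S.x' q) ≠ 0) ∧
      Small (gens e x y) (8000 * k ^ 2) (S.x' q) ∧ Small (gens e x y) (8000 * k ^ 2) (S.y' q) := by
  have hf := oct_fz hP.de
  have gf : ∀ i, (fz e).coeff i ∈ Fil (gens e x y) 1 := fun i =>
    fil_gen (Or.inl (Or.inl (Or.inl ⟨i, rfl⟩)))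
  have gx : ∀ p, x p ∈ Fil (gens e x y) 1 := fun p => fil_gen (Or.inl (Or.inl (Or.inr ⟨p, rfl⟩)))
  have gy : ∀ p, y p ∈ Fil (gens e x y) 1 := fun p => fil_gen (Or.inl (Or.inr ⟨p, rfl⟩))
  have gi : ∀ p, (y p)⁻¹ ∈ Fil (gens e x y) 1 := fun p => fil_gen (Or.inr ⟨p, rfl⟩)
  have y0 : ∀ p, y p ≠ 0 := fun p => (hP.uy p).ne_zero
  have e1 : ∑ p, 2 * k * n p = 2 * (k * s) := by rw [← Finset.mul_sum, hs, mul_assoc]
  have b1 : k * s + k * b + k * μ ≤ 3 * k := by nlinarith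
  obtain ⟨A, B, h0, dA, dB, v1, v2, v3, fA, fB⟩ := sol E ι (gens e x y) (fz e) x (fun p => -y p)
    (fun p => 2 * k * n p) (6 * k) (6 * k + k * b + 2 * (k * μ) - 3)
    (6 * k - (2 * (k * s) + k * b + 2 * (k * μ))) hf gf
    (fun p => ⟨gx p, neg_mem (gy p), by rw [inv_neg]; exact neg_mem (gi p)⟩)
    (fun p => ⟨neg_ne_zero.2 (y0 p), by rw [neg_sq]; exact hP.eqn p⟩) (by omega) (by omega)
  let φ : R (fz e) := ⟨A, B⟩
  have n0 : nm φ ≠ 0 := nm_ne hf h0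
  have o1 := Van.leI (φ := φ) hf (one_pow 2) n0 dA dB v2
  have o2 := Van.leI (φ := φ) hf (σ := -1) (by simp) n0 dA dB v3
  have o3 := oi_add hf (one_pow 2) n0
  have dn : (nm φ).natDegree ≤ 2 * (k * s) + 3 := by omega
  have e2 : ∑ p, (n p : ℤ) = s := by rw [← hs]; simp
  obtain ⟨S, hS⟩ := cert E ι e x y n ((s + b + 2 * μ : ℕ) : ℤ) (2 * k) φ
    (3 - (k * b : ℕ) - 2 * (k * μ : ℕ)) (2 * (k * s : ℕ) + (k * b : ℕ) + 2 * (k * μ : ℕ)) hf hP n0
    (fun p => Van.le (P := (x p, -y p)) (v1 p) n0 (on_io.2 (show On _ (x p, y p) from hP.eqn p))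
      (neg_ne_zero.2 (y0 p))) (by omega) (by omega) (by rw [e2]; push_cast; ring)
    (by push_cast; ring)
  obtain ⟨U, hU⟩ : ∏ p, (X - C (x p)) ^ (2 * k * n p) ∣ nm φ :=
    Fintype.prod_dvd_of_coprime (fun p q h =>
      (isCoprime_X_sub_C_of_isUnit_sub (hP.dx p q h)).pow) fun p => Van.dvd (φ := φ) (v1 p)
  have mP : (∏ p, (X - C (x p)) ^ (2 * k * n p)).Monic :=
    monic_prod_of_monic _ _ fun p _ => (monic_X_sub_C _).pow _
  have U0 := right_ne_zero_of_mul (hU ▸ n0)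
  have dU : U.natDegree ≤ 3 := by
    rw [hU, mP.natDegree_mul' U0, natDegree_prod_of_monic _ _ fun p _ => (monic_X_sub_C _).pow _]
      at dn
    simp only [natDegree_pow, natDegree_X_sub_C, mul_one, e1] at dn
    omega
  have fU : ∀ i, U.coeff i ∈ Fil (gens e x y) (8000 * k ^ 2) := fun i => by
    have fP := fil_pprod Finset.univ (P := fun p => (X - C (x p)) ^ (2 * k * n p))
      fun p i => by simpa [sub_eq_add_neg] using Solx.fil_lin (neg_mem (gx p)) (2 * k * n p) i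
    have fN : ∀ i, (U * ∏ p, (X - C (x p)) ^ (2 * k * n p)).coeff i ∈
        Fil (gens e x y) (1 + (100 * (6 * k) ^ 2 + 100 * (6 * k) ^ 2)) := fun i => by
      rw [mul_comm U, ← hU, nm, coeff_sub, sq φ.re, sq φ.im]
      exact sub_mem (fil_mono (Nat.le_add_left _ 1) (fil_pmul fA fA i))
        (fil_pmul gf (fil_pmul fB fB) i)
    refine fil_mono ?_ (fil_div mP fP fN dU i)
    rw [e1]
    nlinarith
  rw [show 4 * k = 2 * (2 * k) by ring]
  refine ⟨S, fun q => ?_⟩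
  have hq : S.y' q ^ 2 = (fz e).eval (S.x' q) := S.pts.eqn (Sum.inr q)
  have ne : ∀ p, S.x' q ≠ x p := fun p =>
    sub_ne_zero.1 (S.pts.dx (Sum.inr q) (Sum.inl p) (by simp)).ne_zero
  obtain ⟨ψ, p1, p2, p3, p4, p5⟩ := at_pt n0 hq (hS q)
  have z := (ord_pos (P := (S.x' q, S.y' q)) n0 hq).1 ((ord_nonneg n0 _).trans_lt (hS q))
  have rU : U.eval (S.x' q) = 0 := by
    have : (nm φ).eval (S.x' q) = 0 := by
      simp only [nm, eval_sub, eval_mul, eval_pow, ← hq]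
      linear_combination (φ.re.eval (S.x' q) - φ.im.eval (S.x' q) * S.y' q) * z
    rw [hU, eval_mul] at this
    refine (mul_eq_zero.1 this).resolve_left ?_
    simp [eval_prod, Finset.prod_eq_zero_iff, sub_eq_zero, ne]
  exact ⟨⟨ψ, p1, fun p => p2 _ _ _ (ne p) (v1 p), by rw [mul_assoc]; omega, p4, p5⟩,
    ⟨_, U, U0, dU, fU, rU, Or.inl rfl⟩, ⟨_, U, U0, dU, fU, rU, Or.inr ⟨_, hf.deg.le, gf, hq⟩⟩⟩

end Pool.Agent.MP_8d06cc_nt.RED
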