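import Pool.Agent.MP_8d06cc_nt.RED.Ser

/-! Orders of the functions `A + B y` at the points of `y ^ 2 = f(x)`. -/

set_option autoImplicit false

namespace Pool.Agent.MP_8d06cc_nt.RED

open Polynomial

noncomputable section

variable {k : Type} [Field k] {f : k[X]}

/-- the coordinate ring -/
abbrev R (f : k[X]) : Type := QuadraticAlgebra k[X] f 0

/-- the norm -/
def nm (φ : R f) : k[X] := φ.re ^ 2 - f * φ.im ^ 2

/-- the conjugate -/
def cj (φ : R f) : R f := ⟨φ.re, -φ.im⟩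

/-- polynomials as functions -/
def pc (f g : k[X]) : R f := ⟨g, 0⟩

theorem nm_mul (φ ψ : R f) : nm (φ * ψ) = nm φ * nm ψ := by
  simp only [nm, QuadraticAlgebra.re_mul, QuadraticAlgebra.im_mul]
  ring

theorem nm_cj (φ : R f) : nm (cj φ) = nm φ := by simp [nm, cj]

theorem nm_pc (g : k[X]) : nm (pc f g) = g ^ 2 := by simp [nm, pc]

theorem mul_cj (φ : R f) : φ * cj φ = pc f (nm φ) := by
  ext1 <;> simp [nm, pc, cj] <;> ring

theorem pc_mul (g : k[X]) (φ : R f) : pc f g * φ = ⟨g * φ.re, g * φ.im⟩ := by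
  ext1 <;> simp [pc]

theorem nm_ne_pc {g : k[X]} (h : g ≠ 0) : nm (pc f g) ≠ 0 := nm_pc (f := f) g ▸ pow_ne_zero 2 h

theorem nm_ne_mul {φ ψ : R f} (h : nm φ ≠ 0) (h' : nm ψ ≠ 0) : nm (φ * ψ) ≠ 0 :=
  nm_mul φ ψ ▸ mul_ne_zero h h'

theorem nm_ne_cj {φ : R f} (h : nm φ ≠ 0) : nm (cj φ) ≠ 0 := (nm_cj φ).symm ▸ h

/-- expansion of `A + B y` -/
def evv (ξ η : L k) (A B : k[X]) : L k := av ξ A + av ξ B * η

theorem evv_mul {ξ η : L k} (h : η * η = av ξ f) (φ ψ : R f) :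
    evv ξ η (φ * ψ).re (φ * ψ).im = evv ξ η φ.re φ.im * evv ξ η ψ.re ψ.im := by
  simp only [evv, QuadraticAlgebra.re_mul, QuadraticAlgebra.im_mul, map_add, map_mul, map_zero, ← h]
  ring

theorem evv_nm {ξ η : L k} (h : η * η = av ξ f) (φ : R f) :
    evv ξ η φ.re φ.im * evv ξ (-η) φ.re φ.im = av ξ (nm φ) := by
  simp only [evv, nm, map_sub, map_mul, map_pow, ← h]
  ring

/-- monic separable octics -/
structure Oct (f : k[X]) : Prop where
  mon : f.Monic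
  deg : f.natDegree = 8
  sep : f.Separable

/-- points of the curve -/
def On (f : k[X]) (P : k × k) : Prop := P.2 ^ 2 = f.eval P.1

/-- the involution -/
def io (P : k × k) : k × k := (P.1, -P.2)

theorem io_io (P : k × k) : io (io P) = P := by simp [io]

theorem on_io {P : k × k} : On f (io P) ↔ On f P := by simp [On, io]

open Classical in
/-- the order at a finite point -/
def ord (φ : R f) (P : k × k) : ℤ :=
  if On f P then (if P.2 = 0 then rootMultiplicity P.1 (nm φ)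
    else (evv (xi P.1) (eta f P.1 P.2) φ.re φ.im).order) else 0

/-- the expansion of `y` at infinity -/
def etaI (f : k[X]) (σ : k) : L k := (tt k)⁻¹ ^ 4 * eta (reflect 8 f) 0 σ

/-- the order at the point at infinity with `y / x ^ 4 = σ` -/
def oi (σ : k) (φ : R f) : ℤ := (evv (tt k)⁻¹ (etaI f σ) φ.re φ.im).order

/-- vanishing to order `n` -/
def Van (f : k[X]) (a b : k) (n : ℕ) (A B : k[X]) : Prop :=
  ∃ V : k[X], V.eval a = b ∧ (X - C a) ^ n ∣ V ^ 2 - f ∧ (X - C a) ^ n ∣ A + B * V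

theorem ord_off {P : k × k} (φ : R f) (h : ¬ On f P) : ord φ P = 0 := if_neg h

theorem ord_br {P : k × k} (φ : R f) (h : On f P) (h0 : P.2 = 0) :
    ord φ P = rootMultiplicity P.1 (nm φ) := by rw [ord, if_pos h, if_pos h0]

theorem ord_nb {P : k × k} (φ : R f) (h : On f P) (h0 : P.2 ≠ 0) :
    ord φ P = (evv (xi P.1) (eta f P.1 P.2) φ.re φ.im).order := by rw [ord, if_pos h, if_neg h0]

theorem Oct.on_inf (hf : Oct f) {σ : k} (hσ : σ ^ 2 = 1) : σ ^ 2 = (reflect 8 f).eval 0 := by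
  rw [← coeff_zero_eq_eval_zero, coeff_reflect, revAt_zero, ← hf.deg, hσ]
  exact hf.mon.symm

theorem sg_ne {σ : k} (hσ : σ ^ 2 = 1) : σ ≠ 0 := by
  rintro rfl
  simp at hσ

variable [CharZero k]

theorem evv_ne {P : k × k} {φ : R f} (hφ : nm φ ≠ 0) (h : On f P) (h0 : P.2 ≠ 0) :
    evv (xi P.1) (eta f P.1 P.2) φ.re φ.im ≠ 0 :=
  left_ne_zero_of_mul ((evv_nm (eta_spec h h0).1 φ).symm ▸ (av_xi P.1 hφ).1)

theorem res_evv {P : k × k} (A B : k[X]) (h : On f P) (h0 : P.2 ≠ 0) :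
    Res (evv (xi P.1) (eta f P.1 P.2) A B) (A.eval P.1 + B.eval P.1 * P.2) :=
  ((res_xi _).av A).add (((res_xi _).av B).mul (eta_spec h h0).2)

theorem ord_mul {φ ψ : R f} (h : nm φ ≠ 0) (h' : nm ψ ≠ 0) (P : k × k) :
    ord (φ * ψ) P = ord φ P + ord ψ P := by
  by_cases hP : On f P
  · by_cases h0 : P.2 = 0
    · simp only [ord_br _ hP h0]
      rw [nm_mul, rootMultiplicity_mul (mul_ne_zero h h'), Nat.cast_add]
    · simp only [ord_nb _ hP h0]
      rw [evv_mul (eta_spec hP h0).1, HahnSeries.order_mul (evv_ne h hP h0) (evv_ne h' hP h0)]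
  · simp [ord_off _ hP]

theorem ord_cj (φ : R f) (P : k × k) : ord (cj φ) P = ord φ (io P) := by
  by_cases hP : On f P
  · by_cases h0 : P.2 = 0
    · rw [ord_br _ hP h0, ord_br _ (on_io.2 hP) (neg_eq_zero.2 h0), nm_cj]
      rfl
    · rw [ord_nb _ hP h0, ord_nb _ (on_io.2 hP) (neg_ne_zero.2 h0)]
      simp [io, eta_neg hP h0, evv, cj]
  · rw [ord_off _ hP, ord_off _ (on_io.not.2 hP)]

theorem ord_nonneg {φ : R f} (h : nm φ ≠ 0) (P : k × k) : 0 ≤ ord φ P := by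
  by_cases hP : On f P
  · by_cases h0 : P.2 = 0
    · rw [ord_br _ hP h0]
      exact Nat.cast_nonneg _
    · rw [ord_nb _ hP h0]
      exact (ge_iff (evv_ne h hP h0)).1 (res_evv _ _ hP h0).ge
  · rw [ord_off _ hP]

theorem ord_add {φ : R f} {P : k × k} (h : nm φ ≠ 0) (hP : On f P) (h0 : P.2 ≠ 0) :
    ord φ P + ord φ (io P) = rootMultiplicity P.1 (nm φ) := by
  have h1 := evv_ne h (on_io.2 hP) (neg_ne_zero.2 h0)
  rw [ord_nb _ hP h0, ord_nb _ (on_io.2 hP) (neg_ne_zero.2 h0),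
    ← HahnSeries.order_mul (evv_ne h hP h0) h1, ← (av_xi P.1 h).2, ← evv_nm (eta_spec hP h0).1,
    ← eta_neg hP h0]
  rfl

theorem ord_pos {φ : R f} {P : k × k} (h : nm φ ≠ 0) (hP : On f P) :
    0 < ord φ P ↔ φ.re.eval P.1 + φ.im.eval P.1 * P.2 = 0 := by
  by_cases h0 : P.2 = 0
  · have : f.eval P.1 = 0 := by rw [← hP, h0]; simp
    rw [ord_br _ hP h0, Nat.cast_pos, rootMultiplicity_pos h]
    simp [nm, this, h0]
  · rw [ord_nb _ hP h0]
    exact (res_evv _ _ hP h0).pos_iff (evv_ne h hP h0)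

theorem ord_pc_io (g : k[X]) (P : k × k) : ord (pc f g) (io P) = ord (pc f g) P := by
  rw [← ord_cj]
  simp [cj, pc]

omit [CharZero k] in
theorem mult_nm_pc {g : k[X]} (hg : g ≠ 0) (a : k) :
    rootMultiplicity a (nm (pc f g)) = 2 * rootMultiplicity a g := by
  rw [nm_pc, sq, rootMultiplicity_mul (mul_ne_zero hg hg), two_mul]

theorem ord_pc_nb {g : k[X]} {P : k × k} (hg : g ≠ 0) (hP : On f P) (h0 : P.2 ≠ 0) :
    ord (pc f g) P = rootMultiplicity P.1 g := by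
  have := ord_add (nm_ne_pc hg) hP h0
  rw [ord_pc_io, mult_nm_pc hg] at this
  omega

omit [CharZero k] in
theorem ord_pc_br {g : k[X]} {P : k × k} (hg : g ≠ 0) (hP : On f P) (h0 : P.2 = 0) :
    ord (pc f g) P = 2 * rootMultiplicity P.1 g := by
  rw [ord_br _ hP h0, mult_nm_pc hg]
  simp

theorem Van.ge {a b : k} {n : ℕ} {A B : k[X]} (h : Van f a b n A B) (hP : b ^ 2 = f.eval a)
    (h0 : b ≠ 0) : Ge (evv (xi a) (eta f a b) A B) n := by
  obtain ⟨V, h1, h2, h3⟩ := h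
  obtain ⟨e1, e2⟩ := eta_spec hP h0
  have r := ((res_xi a).av V).add e2
  have b2 : V.eval a + b ≠ 0 := by simpa [h1, ← two_mul] using h0
  have g1 : Ge ((av (xi a) V - eta f a b) * (av (xi a) V + eta f a b)) n := by
    have := ge_av_dvd h2
    rw [map_sub, map_pow, ← e1] at this
    rwa [mul_comm, ← sq_sub_sq, sq (eta f a b)]
  have g2 := g1.of_mul (r.ne b2)
  rw [r.order b2, sub_zero] at g2
  have g3 := (ge_av_dvd h3).sub (by simpa using g2.mul ((res_xi a).av B).ge)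
  have e : evv (xi a) (eta f a b) A B =
      av (xi a) (A + B * V) - (av (xi a) V - eta f a b) * av (xi a) B := by
    simp only [evv, map_add, map_mul]
    ring
  rwa [e]

theorem Van.le {P : k × k} {n : ℕ} {φ : R f} (h : Van f P.1 P.2 n φ.re φ.im) (hφ : nm φ ≠ 0)
    (hP : On f P) (h0 : P.2 ≠ 0) : n ≤ ord φ P := by
  rw [ord_nb _ hP h0]
  exact (ge_iff (evv_ne hφ hP h0)).1 (h.ge hP h0)

/-! ### Infinity -/

variable {σ : k}

theorem etaI_sq (hf : Oct f) (hσ : σ ^ 2 = 1) : etaI f σ * etaI f σ = av (tt k)⁻¹ f := by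
  have h := (eta_spec (hf.on_inf hσ) (sg_ne hσ)).1
  rw [← av_refl hf.deg.le] at h
  have := tt_ne (k := k)
  rw [etaI, mul_mul_mul_comm, h]
  field_simp

theorem etaI_neg (hf : Oct f) (hσ : σ ^ 2 = 1) : etaI f (-σ) = -etaI f σ := by
  rw [etaI, etaI, eta_neg (hf.on_inf hσ) (sg_ne hσ), mul_neg]

theorem etaI_ord (hf : Oct f) (hσ : σ ^ 2 = 1) : etaI f σ ≠ 0 ∧ (etaI f σ).order = -4 := by
  have h := (eta_spec (hf.on_inf hσ) (sg_ne hσ)).2
  have t := pow_ne_zero 4 (inv_ne_zero (tt_ne (k := k)))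
  refine ⟨mul_ne_zero t (h.ne (sg_ne hσ)), ?_⟩
  rw [etaI, HahnSeries.order_mul t (h.ne (sg_ne hσ)), h.order (sg_ne hσ), HahnSeries.order_pow,
    tt_inv_order]
  rfl

theorem evI_ne {φ : R f} (hf : Oct f) (hσ : σ ^ 2 = 1) (hφ : nm φ ≠ 0) :
    evv (tt k)⁻¹ (etaI f σ) φ.re φ.im ≠ 0 :=
  left_ne_zero_of_mul ((evv_nm (etaI_sq hf hσ) φ).symm ▸ (av_inf hφ).1)

theorem oi_mul {φ ψ : R f} (hf : Oct f) (hσ : σ ^ 2 = 1) (h : nm φ ≠ 0) (h' : nm ψ ≠ 0) :
    oi σ (φ * ψ) = oi σ φ + oi σ ψ := by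
  rw [oi, evv_mul (etaI_sq hf hσ), HahnSeries.order_mul (evI_ne hf hσ h) (evI_ne hf hσ h'), oi, oi]

theorem oi_cj (φ : R f) (hf : Oct f) (hσ : σ ^ 2 = 1) : oi σ (cj φ) = oi (-σ) φ := by
  simp [oi, etaI_neg hf hσ, evv, cj]

theorem oi_add {φ : R f} (hf : Oct f) (hσ : σ ^ 2 = 1) (h : nm φ ≠ 0) :
    oi σ φ + oi (-σ) φ = -(nm φ).natDegree := by
  rw [oi, oi, ← HahnSeries.order_mul (evI_ne hf hσ h) (evI_ne hf (by rwa [neg_sq]) h),
    etaI_neg hf hσ, evv_nm (etaI_sq hf hσ), (av_inf h).2]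

omit [CharZero k] in
theorem oi_pc {g : k[X]} (hg : g ≠ 0) : oi σ (pc f g) = -g.natDegree := by
  simp [oi, evv, pc, (av_inf hg).2]

omit [CharZero k] in
theorem evI_refl {A B : k[X]} {M : ℕ} (hA : A.natDegree ≤ M) (hB : B.natDegree + 4 ≤ M) :
    evv (tt k)⁻¹ (etaI f σ) A B * tt k ^ M =
      evv (xi 0) (eta (reflect 8 f) 0 σ) (reflect M A) (reflect (M - 4) B) := by
  obtain ⟨M, rfl⟩ : ∃ M', M = M' + 4 := ⟨M - 4, by omega⟩
  have := tt_ne (k := k)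
  rw [evv, evv, ← av_refl hA, Nat.add_sub_cancel, ← av_refl (by omega : B.natDegree ≤ M), etaI]
  field_simp
  ring

theorem Van.leI {n M : ℕ} {φ : R f} (hf : Oct f) (hσ : σ ^ 2 = 1) (hφ : nm φ ≠ 0)
    (hA : φ.re.natDegree ≤ M) (hB : φ.im.natDegree + 4 ≤ M)
    (h : Van (reflect 8 f) 0 σ n (reflect M φ.re) (reflect (M - 4) φ.im)) :
    (n : ℤ) - M ≤ oi σ φ := by
  have := h.ge (hf.on_inf hσ) (sg_ne hσ)
  rw [← evI_refl hA hB] at this
  have := (ge_iff (evI_ne hf hσ hφ)).1 (this.of_mul (pow_ne_zero _ tt_ne))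
  simpa [tt_order, oi] using this

theorem oi_top {M : ℕ} {φ : R f} (hf : Oct f) (hσ : σ ^ 2 = 1) (hφ : nm φ ≠ 0)
    (hA : φ.re.natDegree ≤ M) (hB : φ.im.natDegree + 4 ≤ M) :
    -(M : ℤ) ≤ oi σ φ ∧ (-(M : ℤ) < oi σ φ ↔ φ.re.coeff M + φ.im.coeff (M - 4) * σ = 0) := by
  have r := res_evv (f := reflect 8 f) (P := (0, σ)) (reflect M φ.re) (reflect (M - 4) φ.im)
    (hf.on_inf hσ) (sg_ne hσ)
  simp only [← evI_refl hA hB, ← coeff_zero_eq_eval_zero, coeff_reflect, revAt_zero] at r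
  have n := mul_ne_zero (evI_ne hf hσ hφ) (pow_ne_zero M tt_ne)
  have h1 := (ge_iff n).1 r.ge
  rw [← r.pos_iff n]
  rw [HahnSeries.order_mul (evI_ne hf hσ hφ) (pow_ne_zero M tt_ne), HahnSeries.order_pow,
    tt_order] at h1 ⊢
  simp only [nsmul_eq_mul, mul_one] at h1 ⊢
  rw [oi]
  omega

theorem deg_of_oi {M : ℤ} {φ : R f} (hf : Oct f) (hφ : nm φ ≠ 0) (h1 : -M ≤ oi 1 φ)
    (h2 : -M ≤ oi (-1) φ) : (φ.re ≠ 0 → (φ.re.natDegree : ℤ) ≤ M) ∧
      (φ.im ≠ 0 → (φ.im.natDegree : ℤ) + 4 ≤ M) := by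
  have s : (1 : k) ^ 2 = 1 := one_pow 2
  have g1 := (ge_iff (evI_ne hf s hφ)).2 h1
  have g2 := (ge_iff (evI_ne hf (σ := -1) (by simp) hφ)).2 h2
  rw [etaI_neg hf s] at g2
  have t : (cc 2 : L k) ≠ 0 := cc_ne two_ne_zero
  constructor
  · intro h
    have e : evv (tt k)⁻¹ (etaI f 1) φ.re φ.im + evv (tt k)⁻¹ (-etaI f 1) φ.re φ.im =
        av (tt k)⁻¹ φ.re * cc 2 := by simp only [evv, map_ofNat]; ring
    have := (e ▸ g1.add g2).of_mul t
    rw [ge_iff (av_inf h).1, (av_inf h).2, cc_order] at this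
    omega
  · intro h
    have e : evv (tt k)⁻¹ (etaI f 1) φ.re φ.im - evv (tt k)⁻¹ (-etaI f 1) φ.re φ.im =
        av (tt k)⁻¹ φ.im * etaI f 1 * cc 2 := by simp only [evv, map_ofNat]; ring
    have := ((e ▸ g1.sub g2).of_mul t).of_mul (etaI_ord hf s).1
    rw [ge_iff (av_inf h).1, (av_inf h).2, cc_order, (etaI_ord hf s).2] at this
    omega

end

end Pool.Agent.MP_8d06cc_nt.RED
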