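import Mathlib

/-! Laurent expansions at a point of `y ^ 2 = f(x)`. -/

set_option autoImplicit false

namespace Pool.Agent.MP_8d06cc_nt.RED

open Polynomial

noncomputable section

variable {k : Type} [Field k]

/-- Laurent series -/
abbrev L (k : Type) [Field k] : Type := HahnSeries ℤ k

/-- the variable -/
def tt (k : Type) [Field k] : L k := HahnSeries.single 1 1

/-- constants -/
def cc : k →+* L k := HahnSeries.C

/-- substitution -/
def av (ξ : L k) : k[X] →+* L k := eval₂RingHom cc ξ

theorem av_C (ξ : L k) (a : k) : av ξ (C a) = cc a := eval₂_C _ _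

theorem av_X (ξ : L k) : av ξ X = ξ := eval₂_X _ _

/-- order at least `n` -/
def Ge (u : L k) (n : ℤ) : Prop := (n : WithTop ℤ) ≤ u.orderTop

section
variable {u v : L k} {m n : ℤ}

theorem Ge.mono (h : Ge u n) (hm : m ≤ n) : Ge u m := (WithTop.coe_le_coe.2 hm).trans h

theorem Ge.add (h : Ge u n) (h' : Ge v n) : Ge (u + v) n :=
  (le_min h h').trans HahnSeries.min_orderTop_le_orderTop_add

theorem Ge.sub (h : Ge u n) (h' : Ge v n) : Ge (u - v) n :=
  (le_min h h').trans HahnSeries.min_orderTop_le_orderTop_sub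

theorem Ge.neg (h : Ge u n) : Ge (-u) n := by
  rwa [Ge, HahnSeries.orderTop_neg]

theorem Ge.mul (h : Ge u m) (h' : Ge v n) : Ge (u * v) (m + n) := by
  rw [Ge, HahnSeries.orderTop_mul, WithTop.coe_add]
  exact add_le_add h h'

theorem ge_zero (n : ℤ) : Ge (0 : L k) n := by simp [Ge]

theorem ge_cc (a : k) : Ge (cc a) 0 := HahnSeries.orderTop_single_le

theorem ge_tt : Ge (tt k) 1 := HahnSeries.orderTop_single_le

theorem Ge.pow (h : Ge u m) (n : ℕ) : Ge (u ^ n) (n * m) := by
  induction n with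
  | zero => simpa using ge_cc (1 : k)
  | succ n ih => rw [pow_succ]; push_cast; rw [add_mul, one_mul]; exact ih.mul h

theorem ge_iff (h : u ≠ 0) : Ge u n ↔ n ≤ u.order := by
  rw [Ge, ← HahnSeries.order_eq_orderTop_of_ne_zero h, WithTop.coe_le_coe]

theorem ge_self (u : L k) : Ge u u.order := by
  by_cases h : u = 0
  · exact h ▸ ge_zero _
  · exact (ge_iff h).2 le_rfl

theorem Ge.of_mul (h : Ge (u * v) n) (hv : v ≠ 0) : Ge u (n - v.order) := by
  by_cases hu : u = 0
  · exact hu ▸ ge_zero _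
  rw [ge_iff (mul_ne_zero hu hv), HahnSeries.order_mul hu hv] at h
  rw [ge_iff hu]
  omega

theorem tt_ne : tt k ≠ 0 := HahnSeries.single_ne_zero one_ne_zero

theorem tt_order : (tt k).order = 1 := HahnSeries.order_single one_ne_zero

theorem tt_inv_order : (tt k)⁻¹.order = -1 := by
  have := HahnSeries.order_mul (inv_ne_zero (tt_ne (k := k))) tt_ne
  rw [inv_mul_cancel₀ tt_ne, HahnSeries.order_one, tt_order] at this
  omega

theorem cc_ne {a : k} (h : a ≠ 0) : cc a ≠ 0 := HahnSeries.C_ne_zero h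

theorem cc_order (a : k) : (cc a).order = 0 := HahnSeries.order_C

/-- constant term `a` -/
def Res (u : L k) (a : k) : Prop := Ge (u - cc a) 1

theorem Res.ge {a : k} (h : Res u a) : Ge u 0 := by
  simpa using (Ge.mono h zero_le_one).add (ge_cc a)

theorem res_cc (a : k) : Res (cc a) a := by simpa [Res] using ge_zero 1

theorem Res.add {a b : k} (h : Res u a) (h' : Res v b) : Res (u + v) (a + b) := by
  have := Ge.add h h'
  rwa [Res, map_add, add_sub_add_comm]

theorem Res.neg {a : k} (h : Res u a) : Res (-u) (-a) := by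
  have := Ge.neg h
  rwa [Res, map_neg, ← neg_sub']

theorem Res.mul {a b : k} (h : Res u a) (h' : Res v b) : Res (u * v) (a * b) := by
  have := (Ge.mul h h'.ge).add (Ge.mul h' (ge_cc a))
  have e : u * v - cc a * cc b = (u - cc a) * v + (v - cc b) * cc a := by ring
  rwa [Res, map_mul, e]

theorem Res.top {a : k} (h : Res u a) (ha : a ≠ 0) : u.orderTop = (0 : ℤ) := by
  have e : (cc a).orderTop = (0 : ℤ) := HahnSeries.orderTop_single ha
  rw [← add_sub_cancel (cc a) u, HahnSeries.orderTop_add_eq_left, e]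
  rw [e]
  exact lt_of_lt_of_le (WithTop.coe_lt_coe.2 zero_lt_one) h

theorem Res.ne {a : k} (h : Res u a) (ha : a ≠ 0) : u ≠ 0 := by
  rintro rfl
  simpa using h.top ha

theorem Res.order {a : k} (h : Res u a) (ha : a ≠ 0) : u.order = 0 := by
  have := h.top ha
  rwa [← HahnSeries.order_eq_orderTop_of_ne_zero (h.ne ha), WithTop.coe_inj] at this

theorem Res.pos_iff {a : k} (h : Res u a) (hu : u ≠ 0) : 0 < u.order ↔ a = 0 := by
  refine ⟨fun h0 => by_contra fun ha => h0.ne' (h.order ha), fun ha => ?_⟩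
  rw [Res, ha, map_zero, sub_zero, ge_iff hu] at h
  omega

theorem Res.av {a : k} (h : Res u a) (g : k[X]) : Res (av u g) (g.eval a) := by
  induction g using Polynomial.induction_on with
  | C b => simpa [av_C] using res_cc b
  | add p q hp hq => simpa using hp.add hq
  | monomial n b hb => simpa [pow_succ, ← mul_assoc, av_X] using hb.mul h

end

/-- the local expansion of `x` -/
def xi (a : k) : L k := cc a + tt k

theorem res_xi (a : k) : Res (xi a) a := by simpa [Res, xi] using ge_tt

theorem av_lin (a : k) : av (xi a) (X - C a) = tt k := by simp [av_X, av_C, xi]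

theorem av_xi {g : k[X]} (a : k) (hg : g ≠ 0) :
    av (xi a) g ≠ 0 ∧ (av (xi a) g).order = rootMultiplicity a g := by
  obtain ⟨q, hq, hd⟩ := exists_eq_pow_rootMultiplicity_mul_and_not_dvd g hg a
  have h := (res_xi a).av q
  have h0 : q.eval a ≠ 0 := fun e => hd (dvd_iff_isRoot.2 e)
  have e : av (xi a) g = tt k ^ rootMultiplicity a g * av (xi a) q := by
    conv_lhs => rw [hq, map_mul, map_pow, av_lin]
  rw [e, HahnSeries.order_mul (pow_ne_zero _ tt_ne) (h.ne h0), h.order h0, HahnSeries.order_pow,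
    tt_order]
  exact ⟨mul_ne_zero (pow_ne_zero _ tt_ne) (h.ne h0), by simp⟩

theorem ge_av_dvd {g : k[X]} {a : k} {n : ℕ} (h : (X - C a) ^ n ∣ g) : Ge (av (xi a) g) n := by
  obtain ⟨q, rfl⟩ := h
  rw [map_mul, map_pow, av_lin]
  simpa using (ge_tt.pow n).mul ((res_xi a).av q).ge

theorem av_refl {g : k[X]} {n : ℕ} (h : g.natDegree ≤ n) :
    av (tt k)⁻¹ g * tt k ^ n = av (xi 0) (reflect n g) := by
  let _ := invertibleOfNonzero (inv_ne_zero (tt_ne (k := k)))
  have := eval₂_reflect_mul_pow cc (tt k)⁻¹ n g h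
  rw [invOf_eq_inv, inv_inv] at this
  have e : xi (0 : k) = tt k := by simp [xi]
  rw [e]
  change eval₂ _ _ _ * _ = eval₂ _ _ _
  rw [← this, mul_assoc, ← mul_pow, inv_mul_cancel₀ tt_ne, one_pow, mul_one]

theorem av_inf {g : k[X]} (hg : g ≠ 0) :
    av (tt k)⁻¹ g ≠ 0 ∧ (av (tt k)⁻¹ g).order = -g.natDegree := by
  have e := av_refl (le_refl g.natDegree)
  have h := (res_xi 0).av (reflect g.natDegree g)
  have h0 : (reflect g.natDegree g).eval 0 ≠ 0 := by
    rw [← coeff_zero_eq_eval_zero, coeff_reflect, revAt_zero]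
    exact leadingCoeff_ne_zero.2 hg
  have h1 : av (tt k)⁻¹ g ≠ 0 := left_ne_zero_of_mul (e ▸ h.ne h0)
  have := h.order h0
  rw [← e, HahnSeries.order_mul h1 (pow_ne_zero _ tt_ne), HahnSeries.order_pow, tt_order] at this
  exact ⟨h1, by simp at this; omega⟩

theorem ge_ps (w : PowerSeries k) : Ge (HahnSeries.ofPowerSeries ℤ k w) 0 := by
  refine HahnSeries.le_orderTop_iff_forall.2 fun j hj => ?_
  have := PowerSeries.coeff_coe w j
  rwa [if_pos (by exact_mod_cast hj)] at this

theorem exists_eta [CharZero k] (f : k[X]) {a b : k} (h : b ^ 2 = f.eval a) (hb : b ≠ 0) :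
    ∃ η : L k, η * η = av (xi a) f ∧ Res η b := by
  let G : PowerSeries k := eval₂ PowerSeries.C (PowerSeries.C a + PowerSeries.X) f
  have hG : PowerSeries.constantCoeff G = f.eval a := by
    simp only [G]
    rw [hom_eval₂, PowerSeries.constantCoeff_comp_C, eval₂_id]
    simp
  obtain ⟨w, hw, hw'⟩ := HenselianRing.is_henselian
    (I := (Ideal.span {PowerSeries.X} : Ideal (PowerSeries k))) (X ^ 2 - C G)
    (monic_X_pow_sub_C G two_ne_zero) (PowerSeries.C b)
    (by simp [Ideal.mem_span_singleton, PowerSeries.X_dvd_iff, hG, h])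
    (IsUnit.map _ (by simp [PowerSeries.isUnit_iff_constantCoeff, hb]))
  obtain ⟨q, hq⟩ := Ideal.mem_span_singleton.1 hw'
  refine ⟨HahnSeries.ofPowerSeries ℤ k w, ?_, ?_⟩
  · have e : w * w = G := by
      have := hw.eq_zero
      simp only [eval_sub, eval_pow, eval_X, eval_C] at this
      linear_combination this
    rw [← map_mul, e]
    simp only [G]
    rw [hom_eval₂]
    congr 1
    · ext1 c
      simp [cc]
    · simp [xi, cc, tt]
  · have := congrArg (HahnSeries.ofPowerSeries ℤ k) hq
    rw [map_sub, map_mul, HahnSeries.ofPowerSeries_C, HahnSeries.ofPowerSeries_X] at this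
    have h2 := (ge_tt (k := k)).mul (ge_ps q)
    rw [Res, cc, this]
    exact h2

open Classical in
/-- the local expansion of `y` -/
def eta (f : k[X]) (a b : k) : L k :=
  if h : ∃ η : L k, η * η = av (xi a) f ∧ Res η b then h.choose else 0

theorem eta_spec [CharZero k] {f : k[X]} {a b : k} (h : b ^ 2 = f.eval a) (hb : b ≠ 0) :
    eta f a b * eta f a b = av (xi a) f ∧ Res (eta f a b) b := by
  rw [eta, dif_pos (exists_eta f h hb)]
  exact (exists_eta f h hb).choose_spec

theorem eta_neg [CharZero k] {f : k[X]} {a b : k} (h : b ^ 2 = f.eval a) (hb : b ≠ 0) :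
    eta f a (-b) = -eta f a b := by
  obtain ⟨h1, h2⟩ := eta_spec h hb
  obtain ⟨h3, h4⟩ := eta_spec (f := f) (a := a) (b := -b) (by rwa [neg_sq]) (neg_ne_zero.2 hb)
  have h5 := (h4.add h2.neg).ne (by simpa [← two_mul] using hb)
  refine eq_neg_of_add_eq_zero_left (mul_left_cancel₀ h5 ?_)
  linear_combination h3 - h1

end

end Pool.Agent.MP_8d06cc_nt.RED
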