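import Pool.Agent.MP_8d06cc_nt.RED.Defs
import Pool.Agent.MP_8d06cc_nt.RED.Cram

/-! The linear system of block RED has a solution of controlled degree. -/

set_option autoImplicit false

namespace Pool.Agent.MP_8d06cc_nt.RED

open Polynomial AB

namespace Solx

variable {E : Type} [Field E] [CharZero E] {G : Set E}

/-- the coefficients have linearly growing degree -/
def Gd (G : Set E) (c : ℕ) (P : E[X]) : Prop := ∀ i, P.coeff i ∈ Fil G (c + 11 * i)

theorem Gd.mul {a b : ℕ} {P Q : E[X]} (hP : Gd G a P) (hQ : Gd G b Q) : Gd G (a + b) (P * Q) :=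
  fun i => by
    rw [coeff_mul]
    refine sum_mem fun c hc => fil_mono (le_of_eq ?_) (fil_mul (hP _) (hQ _))
    have := Finset.HasAntidiagonal.mem_antidiagonal.1 hc
    omega

theorem Gd.of {a : ℕ} {P : E[X]} (h : ∀ i, P.coeff i ∈ Fil G a) : Gd G a P :=
  fun i => fil_mono (by omega) (h i)

theorem gd_one {P : E[X]} (h0 : P.coeff 0 = 1) (h : ∀ i, P.coeff i ∈ Fil G 11) : Gd G 0 P :=
  fun i => by
    cases i with
    | zero => exact h0 ▸ fil_one _
    | succ i => exact fil_mono (by omega) (h _)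

theorem fil_C {a : E} {d : ℕ} (h : a ∈ Fil G d) (i : ℕ) : (C a).coeff i ∈ Fil G d := by
  rw [coeff_C]
  split_ifs
  · exact h
  · exact zero_mem _

theorem fil_Xp (n i : ℕ) : (X ^ n : E[X]).coeff i ∈ Fil G 0 := by
  rw [coeff_X_pow]
  split_ifs
  · exact fil_one _
  · exact zero_mem _

theorem fil_lin {x : E} (h : x ∈ Fil G 1) (j i : ℕ) : ((X + C x) ^ j).coeff i ∈ Fil G j := by
  induction j generalizing i with
  | zero => simpa using fil_Xp 0 i
  | succ j ih =>
    rw [pow_succ]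
    refine fil_pmul ih (fun l => ?_) i
    rw [coeff_add]
    exact add_mem (fil_mono (D := 0) (by omega) (by simpa using fil_Xp 1 l)) (fil_C h l)

theorem sqrt {H : E[X]} (h0 : H.coeff 0 = 1) (hH : Gd G 0 H) (n : ℕ) :
    ∃ V : E[X], V.coeff 0 = 1 ∧ X ^ (n + 1) ∣ V ^ 2 - H ∧ Gd G 0 V := by
  induction n with
  | zero => exact ⟨1, by simp, by simp [X_dvd_iff, h0], Gd.of (by simpa using fil_Xp 0)⟩
  | succ n ih =>
    obtain ⟨V, v0, ⟨Q, hQ⟩, gV⟩ := ih
    have e : Q.coeff 0 = (V * V - H).coeff (n + 1) := by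
      rw [← sq, hQ]
      simpa using (coeff_X_pow_mul Q (n + 1) 0).symm
    have hc : Q.coeff 0 / 2 ∈ Fil G (0 + 11 * (n + 1)) := by
      have := Submodule.smul_mem _ (1 / 2 : ℚ) (sub_mem ((gV.mul gV) (n + 1)) (hH (n + 1)))
      rw [← coeff_sub, ← e, Rat.smul_def] at this
      rwa [show Q.coeff 0 / 2 = ((1 / 2 : ℚ) : E) * Q.coeff 0 by push_cast; ring]
    obtain ⟨S, hS⟩ : X ∣ Q - C (Q.coeff 0) * V := by simp [X_dvd_iff, v0]
    have e2 : C (Q.coeff 0) = 2 * C (Q.coeff 0 / 2) := by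
      rw [← map_ofNat C 2, ← C_mul, mul_div_cancel₀ _ two_ne_zero]
    refine ⟨V - C (Q.coeff 0 / 2) * X ^ (n + 1), by simp [v0],
      ⟨S + C (Q.coeff 0 / 2) ^ 2 * X ^ n, ?_⟩, fun i => ?_⟩
    · linear_combination hQ + X ^ (n + 1) * hS + X ^ (n + 1) * V * e2
    · rw [coeff_sub, coeff_C_mul, coeff_X_pow]
      refine sub_mem (gV i) ?_
      split_ifs with h
      · rwa [mul_one, h]
      · simp

theorem sys {ρ κ : Type} [Fintype ρ] [Fintype κ] (n : ρ → ℕ) (P : ρ → κ → E[X]) (d : ℕ)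
    (h : ∀ r j i, i < n r → (P r j).coeff i ∈ Fil G d) (hc : ∑ r, n r < Fintype.card κ) :
    ∃ v : κ → E, v ≠ 0 ∧ (∀ j, v j ∈ Fil G (Fintype.card κ * d)) ∧
      ∀ r, X ^ n r ∣ ∑ j, C (v j) * P r j := by
  obtain ⟨v, v0, hv, he⟩ := cramer (G := G) (ι := Σ r, Fin (n r))
    (fun s j => (P s.1 j).coeff s.2) d (fun s j => h _ _ _ s.2.2) (by simpa using hc)
  refine ⟨v, v0, hv, fun r => X_pow_dvd_iff.2 fun i hi => ?_⟩
  simpa [mul_comm] using he ⟨r, i, hi⟩

omit [CharZero E] in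
theorem dvd_tay {x : E} {n : ℕ} {P : E[X]} (h : X ^ n ∣ taylor x P) : (X - C x) ^ n ∣ P := by
  obtain ⟨Q, hQ⟩ := h
  refine ⟨taylor (-x) Q, ?_⟩
  have := congrArg (taylor (-x)) hQ
  rwa [taylor_taylor, neg_add_cancel, taylor_zero, taylor_mul, taylor_pow, taylor_X, C_neg,
    ← sub_eq_add_neg] at this

omit [CharZero E] in
theorem refl_sum {N m : ℕ} (hm : m ≤ N + 1) (v : Fin m → E) :
    reflect N (∑ j : Fin m, monomial j (v j)) = ∑ j : Fin m, C (v j) * X ^ (N - j) := by
  have : ∀ s : Finset (Fin m), reflect N (∑ j ∈ s, monomial j (v j)) =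
      ∑ j ∈ s, C (v j) * X ^ (N - j) := fun s => by
    induction s using Finset.induction_on with
    | empty => simp
    | insert j s hj ih =>
      rw [Finset.sum_insert hj, Finset.sum_insert hj, reflect_add, ih, ← C_mul_X_pow_eq_monomial,
        reflect_C_mul_X_pow, revAt_le (by omega)]
  exact this _

omit [CharZero E] in
theorem tay_sum {m : ℕ} (x : E) (v : Fin m → E) :
    taylor x (∑ j : Fin m, monomial j (v j)) = ∑ j, C (v j) * (X + C x) ^ (j : ℕ) := by
  simp only [map_sum, taylor_monomial]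

theorem fil_ofFn [DecidableEq E] {m d : ℕ} {v : Fin m → E} (h : ∀ j, v j ∈ Fil G d) (i : ℕ) :
    (ofFn m v).coeff i ∈ Fil G d := by
  by_cases hi : i < m
  · rw [ofFn_coeff_eq_val_of_lt v hi]
    exact h _
  · rw [ofFn_coeff_eq_zero_of_ge v (not_lt.1 hi)]
    exact zero_mem _

end Solx

open Solx in
theorem sol : S_SOL := by
  classical
  intro E ι _ _ _ G f x y n M a b hf hG hp hy h4 hn
  have gH : ∀ p, ∃ V : E[X], V.coeff 0 = 1 ∧
      X ^ (n p + 1) ∣ V ^ 2 - C ((y p)⁻¹ ^ 2) * taylor (x p) f ∧ Gd G 0 V := fun p => by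
    have h0 : (C ((y p)⁻¹ ^ 2) * taylor (x p) f).coeff 0 = 1 := by
      rw [coeff_C_mul, taylor_coeff_zero, ← (hy p).2, ← mul_pow, inv_mul_cancel₀ (hy p).1, one_pow]
    refine sqrt h0 (gd_one h0 fun i => fil_pmul (a := 2) (b := 9)
      (fil_C (fil_pow 2 (hp p).2.2)) (fun l => ?_) i) _
    rw [as_sum_range' f 9 (by rw [hf.deg]; omega), map_sum, finsetSum_coeff]
    refine sum_mem fun j hj => ?_
    rw [taylor_monomial]
    have := Finset.mem_range.1 hj
    exact fil_mono (by omega) (fil_pmul (fil_C (hG j)) (fil_lin (hp p).1 j) l)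
  choose V v0 vd vg using gH
  have r0 : (reflect 8 f).coeff 0 = 1 := by
    rw [coeff_reflect, revAt_zero, ← hf.deg]
    exact hf.mon
  obtain ⟨W, w0, wd, wg⟩ := sqrt (G := G) r0
    (gd_one r0 fun i => fil_mono (by omega) (coeff_reflect 8 f i ▸ hG _)) (a + b)
  have sb : ∑ p, n p + (a + b) < Fintype.card (Fin (M + 1) ⊕ Fin (M - 3)) := by
    simp only [Fintype.card_sum, Fintype.card_fin]
    omega
  obtain ⟨v, vn, hv, he⟩ := sys (G := G) (ρ := ι ⊕ Bool) (κ := Fin (M + 1) ⊕ Fin (M - 3))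
    (Sum.elim n fun s => cond s a b)
    (Sum.elim (fun p => Sum.elim (fun j => (X + C (x p)) ^ (j : ℕ))
        fun j => (X + C (x p)) ^ (j : ℕ) * (C (y p) * V p))
      fun s => Sum.elim (fun j => X ^ (M - j)) fun j => X ^ (M - 4 - j) * cond s W (-W))
    (24 * M) (by
      rintro (p | s) (j | j) i hi
      · exact fil_mono (by omega) (fil_lin (hp p).1 j i)
      · have := Finset.single_le_sum (f := n) (fun _ _ => Nat.zero_le _) (Finset.mem_univ p)
        have hi' : i < n p := hi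
        exact fil_mono (by omega)
          ((Gd.of (fil_lin (hp p).1 j)).mul ((Gd.of (fil_C (hp p).2.1)).mul (vg p)) i)
      · exact fil_mono (by omega) (fil_Xp _ i)
      · have hi' : i < a + b := by cases s <;> simp at hi <;> omega
        refine fil_mono (by omega) ((Gd.of (fil_Xp _)).mul (b := 0) ?_ i)
        cases s
        · exact fun l => by simpa using wg l
        · exact wg)
    (by simpa [add_comm] using sb)
  have hv' : ∀ j, v j ∈ Fil G (100 * M ^ 2) := fun j => fil_mono (by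
    simp only [Fintype.card_sum, Fintype.card_fin]
    have : M + 1 + (M - 3) ≤ 2 * M := by omega
    nlinarith) (hv j)
  refine ⟨ofFn (M + 1) fun j => v (.inl j), ofFn (M - 3) fun j => v (.inr j), ?_, ?_, ?_,
    fun p => ⟨taylor (-x p) (C (y p) * V p), ?_, dvd_tay ?_, dvd_tay ?_⟩, ⟨W, ?_, ?_, ?_⟩,
    ⟨-W, ?_, ?_, ?_⟩, fil_ofFn fun j => hv' _, fil_ofFn fun j => hv' _⟩
  · rintro ⟨h1, h2⟩
    have e1 := injective_ofFn (M + 1) (h1.trans (map_zero _).symm)
    have e2 := injective_ofFn (M - 3) (h2.trans (map_zero _).symm)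
    refine vn (funext ?_)
    rintro (j | j)
    · exact congrFun e1 j
    · exact congrFun e2 j
  · exact Nat.le_of_lt_succ (ofFn_natDegree_lt (by omega) _)
  · have := ofFn_natDegree_lt (n := M - 3) (by omega) fun j => v (.inr j)
    omega
  · rw [taylor_eval, add_neg_cancel, ← coeff_zero_eq_eval_zero, coeff_C_mul, v0, mul_one]
  · rw [map_sub, taylor_pow, taylor_taylor, add_neg_cancel, taylor_zero]
    have u : C (y p) ^ 2 * C ((y p)⁻¹ ^ 2) = 1 := by
      rw [← C_pow, ← C_mul, ← mul_pow, mul_inv_cancel₀ (hy p).1, one_pow, C_1]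
    obtain ⟨Q, hQ⟩ := vd p
    exact ⟨C (y p) ^ 2 * X * Q, by linear_combination C (y p) ^ 2 * hQ + taylor (x p) f * u⟩
  · rw [map_add, taylor_mul, taylor_taylor, add_neg_cancel, taylor_zero, ofFn_eq_sum_monomial,
      ofFn_eq_sum_monomial, tay_sum, tay_sum, Finset.sum_mul]
    simpa [mul_assoc] using he (.inl p)
  · rw [← coeff_zero_eq_eval_zero, w0]
  · rw [C_0, sub_zero]
    exact (pow_dvd_pow _ (by omega)).trans wd
  · rw [C_0, sub_zero, ofFn_eq_sum_monomial, ofFn_eq_sum_monomial, refl_sum le_rfl,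
      refl_sum (by omega), Finset.sum_mul]
    simpa [mul_assoc] using he (.inr true)
  · rw [← coeff_zero_eq_eval_zero, coeff_neg, w0]
  · rw [C_0, sub_zero, neg_sq]
    exact (pow_dvd_pow _ (by omega)).trans wd
  · rw [C_0, sub_zero, ofFn_eq_sum_monomial, ofFn_eq_sum_monomial, refl_sum le_rfl,
      refl_sum (by omega), Finset.sum_mul]
    simpa [mul_assoc] using he (.inr false)

end Pool.Agent.MP_8d06cc_nt.RED
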